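import Pool.Agent.Lib.MP_40f35d_gt.H.Base

/-!
# MP_40f35d_gt, project Sw (S13072): common definitions
Hereditary weak chainability of planar tree-like continua.
-/

set_option autoImplicit false

open Set Topology

namespace Pool.Agent.Lib.MP_40f35d_gt.Sw

open Pool.Agent.Lib.MP_40f35d_gt.H

/-- Equal or adjacent. -/
def Ea {V : Type} (G : SimpleGraph V) (a b : V) : Prop := a = b ∨ G.Adj a b

/-- The set `D` is connected in the graph `G`. -/
def Conn {V : Type} (G : SimpleGraph V) (D : Set V) : Prop :=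
  ∀ a ∈ D, ∀ b ∈ D, Relation.ReflTransGen (fun x y => x ∈ D ∧ y ∈ D ∧ G.Adj x y) a b

/-- One step of an evader in the window `D × [u0, u1]`: he stays on far cells `(x, u)`
and changes either the vertex or the time. -/
def FarStep {V : Type} (G : SimpleGraph V) (near : V → ℕ → Prop) (D : Set V) (u0 u1 : ℕ)
    (c c' : V × ℕ) : Prop :=
  (c.1 ∈ D ∧ u0 ≤ c.2 ∧ c.2 ≤ u1 ∧ ¬ near c.1 c.2) ∧
  (c'.1 ∈ D ∧ u0 ≤ c'.2 ∧ c'.2 ≤ u1 ∧ ¬ near c'.1 c'.2) ∧
  ((c.1 = c'.1 ∧ (c'.2 = c.2 + 1 ∨ c.2 = c'.2 + 1)) ∨ (c.2 = c'.2 ∧ G.Adj c.1 c'.1))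

/-- An evader crosses the window `D × [u0, u1]` from the first to the last time. -/
def Crossed {V : Type} (G : SimpleGraph V) (near : V → ℕ → Prop) (D : Set V) (u0 u1 : ℕ) :
    Prop :=
  ∃ x ∈ D, ∃ y ∈ D, ¬ near x u0 ∧ ¬ near y u1 ∧
    Relation.ReflTransGen (FarStep G near D u0 u1) (x, u0) (y, u1)

/-- The states of the game with a reader: `(x, p, u)` with `x` far and `p` near at time `u`. -/
def GState {V : Type} (near : V → ℕ → Prop) (D : Set V) (u0 u1 : ℕ) (c : V × V × ℕ) : Prop :=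
  c.1 ∈ D ∧ c.2.1 ∈ D ∧ u0 ≤ c.2.2 ∧ c.2.2 ≤ u1 ∧ ¬ near c.1 c.2.2 ∧ near c.2.1 c.2.2

/-- One move of the game with a reader: either the evader `x` moves to an adjacent vertex, or the
reader and the time move by at most one step. -/
def GStep {V : Type} (G : SimpleGraph V) (near : V → ℕ → Prop) (D : Set V) (u0 u1 : ℕ)
    (c c' : V × V × ℕ) : Prop :=
  GState near D u0 u1 c ∧ GState near D u0 u1 c' ∧
  ((G.Adj c.1 c'.1 ∧ c.2.1 = c'.2.1 ∧ c.2.2 = c'.2.2) ∨
    (c.1 = c'.1 ∧ Ea G c.2.1 c'.2.1 ∧ Nr c.2.2 c'.2.2))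

/-- The vertex `v` separates: it lies on every walk from `a` to `b` (in a tree: it is a vertex of
the path from `a` to `b`). -/
def Btw {V : Type} (G : SimpleGraph V) (a b v : V) : Prop := ∀ p : G.Walk a b, v ∈ p.support

/-- The arc from `a` to `b` of the tree `Gm` (labels `g` in the tree `G`) is read by the word `ω`
with error two: a walk from `a` to `b` in the arc, and positions in the word, from the first to
the last. -/
def Reads {T V : Type} (Gm : SimpleGraph V) (g : V → T) (G : SimpleGraph T) (ω : List T)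
    (a b : V) : Prop :=
  ∃ (R : ℕ) (p : ℕ → V) (t : ℕ → ℕ), p 0 = a ∧ p R = b ∧ t 0 = 0 ∧ t R = ω.length - 1 ∧
    (∀ r < R, Ea Gm (p r) (p (r + 1)) ∧ Nr (t r) (t (r + 1))) ∧
    ∀ r ≤ R, Btw Gm a b (p r) ∧ ∃ z, ω[t r]? = some z ∧ G.dist (g (p r)) z ≤ 2

/-- The weight of a move from the label `a` to the label `b` seen from the label `c`. -/
def hw {T : Type} [DecidableEq T] (h : T → T → T → ℤ) (a b c : T) : ℤ :=
  if a = b then 0 else h a b c

/-- An angle structure on a tree: `h a b c` is the number of half turns of the direction from `c`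
to a point which moves from `a` to `b`, and `sg` gives its parity. -/
structure Ang {T : Type} (G : SimpleGraph T) (h : T → T → T → ℤ) (sg : T → T → ℤ) : Prop where
  anti : ∀ a b c, G.Adj a b → a ≠ c → b ≠ c → h a b c = - h b a c
  flat : ∀ a b c d, G.Adj a b → G.Adj c d → a ≠ c → a ≠ d → b ≠ c → b ≠ d →
    h a b c + h c d b = h c d a + h a b d
  par : ∀ a b c, G.Adj a b → a ≠ c → b ≠ c → (2 : ℤ) ∣ h a b c - (sg b c - sg a c)
  odd : ∀ a b, a ≠ b → ¬ (2 : ℤ) ∣ sg a b - sg b a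

/-- Potentials for the angle between two disjoint connected sets of small tiles, on the pairs with
distinct labels. -/
def AngPair {T V : Type} [DecidableEq T] (Gm : SimpleGraph V) (g : V → T) (h : T → T → T → ℤ) :
    Prop :=
  ∀ D D' : Set V, Disjoint D D' → Conn Gm D → Conn Gm D' → ∃ S : V → V → ℤ,
    (∀ x ∈ D, ∀ x' ∈ D, ∀ p ∈ D', Gm.Adj x x' → g x ≠ g p → g x' ≠ g p →
      S x' p - S x p = hw h (g x) (g x') (g p)) ∧
    (∀ x ∈ D, ∀ p ∈ D', ∀ p' ∈ D', Gm.Adj p p' → g x ≠ g p → g x ≠ g p' →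
      S x p' - S x p = hw h (g p) (g p') (g x))

/-- The tile trees of a planar tree-like continuum `X`, on all levels. -/
structure Levels {E : Type} [MetricSpace E] (X : Set E) where
  /-- the tiles of level `n` -/
  T : ℕ → Type
  /-- finitely many -/
  fin : ∀ n, Fintype (T n)
  /-- decidable equality -/
  dec : ∀ n, DecidableEq (T n)
  /-- the tile tree -/
  G : ∀ n, SimpleGraph (T n)
  tree : ∀ n, (G n).IsTree
  /-- the tile of level `n` which contains a tile of level `m` -/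
  g : ∀ m n, T m → T n
  g_adj : ∀ m n, n ≤ m → ∀ a b, (G m).Adj a b → Ea (G n) (g m n a) (g m n b)
  g_comp : ∀ k m n, n ≤ m → m ≤ k → ∀ a, g m n (g k m a) = g k n a
  g_self : ∀ n a, g n n a = a
  /-- the tile of a point -/
  t : ∀ n, E → T n
  t_g : ∀ m n, n ≤ m → ∀ z ∈ X, g m n (t m z) = t n z
  /-- the constant in the size of the tiles -/
  C : ℝ
  size : ∀ n, ∀ z ∈ X, ∀ z' ∈ X, dist z z' ≤ ((G n).dist (t n z) (t n z') + 1) * (C / 2 ^ n)
  loc : ∀ n, ∃ δ : ℝ, 0 < δ ∧ ∀ z ∈ X, ∀ z' ∈ X, dist z z' < δ → Ea (G n) (t n z) (t n z')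
  ang : ∀ m n, n ≤ m → ∃ (h : T n → T n → T n → ℤ) (sg : T n → T n → ℤ),
    Ang (G n) h sg ∧ @AngPair (T n) (T m) (dec n) (G m) (g m n) h

end Pool.Agent.Lib.MP_40f35d_gt.Sw
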