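import Pool.Agent.Lib.MP_40f35d_gt.Sw.Defs2

/-!
# MP_40f35d_gt, project Sw (S13072): rows C6, C7

* `read_append`: concatenation of readings;
* `wpath_of_gstep`: a chain of game moves is a `WPath`.
-/

set_option autoImplicit false

open Set Topology

namespace Pool.Agent.Lib.MP_40f35d_gt.Sw

open Pool.Agent.Lib.MP_40f35d_gt.H

theorem btw_left {V : Type} {G : SimpleGraph V} {a b c v : V} (hb : Btw G a c b)
    (hv : Btw G a b v) : Btw G a c v := by
  classical
  intro q
  exact q.support_takeUntil_subset (hb q) (hv (q.takeUntil b (hb q)))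

theorem btw_right {V : Type} {G : SimpleGraph V} {a b c v : V} (hb : Btw G a c b)
    (hv : Btw G b c v) : Btw G a c v := by
  classical
  intro q
  exact q.support_dropUntil_subset (hb q) (hv (q.dropUntil b (hb q)))

/-- Row C6: concatenation. -/
theorem read_append {T V : Type} (Gm : SimpleGraph V) (hGm : Gm.IsTree) (g : V → T)
    (G : SimpleGraph T) (ω ω' : List T) (h : ω ≠ []) (h' : ω' ≠ []) (a b c : V)
    (hb : Btw Gm a c b) (h1 : Reads Gm g G ω a b) (h2 : Reads Gm g G ω' b c) :
    Reads Gm g G (ω ++ ω') a c := by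
  obtain ⟨R, p, t, hp0, hpR, ht0, htR, hs, hr⟩ := h1
  obtain ⟨R', p', t', hp0', hpR', ht0', htR', hs', hr'⟩ := h2
  have hl : 0 < ω.length := List.length_pos_iff.2 h
  have hl' : 0 < ω'.length := List.length_pos_iff.2 h'
  refine ⟨R + 1 + R', fun r => if r ≤ R then p r else p' (r - (R + 1)),
    fun r => if r ≤ R then t r else ω.length + t' (r - (R + 1)), ?_, ?_, ?_, ?_, ?_, ?_⟩
  · simp only [Nat.zero_le, if_true]
    exact hp0
  · beta_reduce
    rw [if_neg (by omega), Nat.add_sub_cancel_left]
    exact hpR'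
  · simp only [Nat.zero_le, if_true]
    exact ht0
  · beta_reduce
    rw [if_neg (by omega), Nat.add_sub_cancel_left, htR', List.length_append]
    omega
  · intro r hrR
    beta_reduce
    by_cases h3 : r < R
    · rw [if_pos h3.le, if_pos (show r + 1 ≤ R by omega), if_pos h3.le,
        if_pos (show r + 1 ≤ R by omega)]
      exact hs r h3
    · by_cases h4 : r = R
      · subst h4
        rw [if_pos le_rfl, if_neg (show ¬ r + 1 ≤ r by omega), if_pos le_rfl,
          if_neg (show ¬ r + 1 ≤ r by omega), Nat.sub_self, hp0', ht0', hpR, htR]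
        refine ⟨Or.inl rfl, ?_⟩
        unfold Nr
        omega
      · rw [if_neg (show ¬ r ≤ R by omega), if_neg (show ¬ r + 1 ≤ R by omega),
          if_neg (show ¬ r ≤ R by omega), if_neg (show ¬ r + 1 ≤ R by omega)]
        have e : r + 1 - (R + 1) = r - (R + 1) + 1 := by omega
        rw [e]
        obtain ⟨h5, h6⟩ := hs' (r - (R + 1)) (by omega)
        refine ⟨h5, ?_⟩
        unfold Nr at h6 ⊢
        omega
  · intro r hrR
    by_cases h3 : r ≤ R
    · simp only [if_pos h3]
      obtain ⟨h4, z, hz, h5⟩ := hr r h3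
      refine ⟨btw_left hb h4, z, ?_, h5⟩
      rw [List.getElem?_append_left]
      · exact hz
      · exact (List.getElem?_eq_some_iff.1 hz).1
    · simp only [if_neg h3]
      obtain ⟨h4, z, hz, h5⟩ := hr' (r - (R + 1)) (by omega)
      refine ⟨btw_right hb h4, z, ?_, h5⟩
      rw [List.getElem?_append_right (Nat.le_add_right _ _), Nat.add_sub_cancel_left]
      exact hz

/-- Row C7: a chain of game moves is a `WPath`. -/
theorem wpath_of_gstep {T V : Type} (Gm : SimpleGraph V) (g : V → T) (B : ℕ → Set T)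
    (P : ℕ → ℕ) (D : Set V) (u0 u1 : ℕ) (hP : ∀ u, u0 ≤ u → u < u1 → Nr (P u) (P (u + 1)))
    (x1 p1 p2 x2 : V) (s1 s2 : ℕ)
    (h0 : GState (fun p u => g p ∈ B (P u)) D u0 u1 (x1, p1, s1))
    (h : Relation.ReflTransGen (GStep Gm (fun p u => g p ∈ B (P u)) D u0 u1)
      (x1, p1, s1) (p2, x2, s2)) :
    ∃ (n : ℕ) (x p : ℕ → V) (s : ℕ → ℕ), WPath Gm g B D n x p s ∧ x 0 = x1 ∧ p 0 = p1 ∧
      x n = p2 ∧ p n = x2 ∧ ∀ t ≤ n, ∃ u, u0 ≤ u ∧ u ≤ u1 ∧ s t = P u := by
  have key : ∀ c : V × V × ℕ, Relation.ReflTransGen (GStep Gm (fun p u => g p ∈ B (P u)) D u0 u1)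
      (x1, p1, s1) c → ∃ (n : ℕ) (x p : ℕ → V) (s : ℕ → ℕ), WPath Gm g B D n x p s ∧ x 0 = x1 ∧
        p 0 = p1 ∧ x n = c.1 ∧ p n = c.2.1 ∧ s n = P c.2.2 ∧
          ∀ t ≤ n, ∃ u, u0 ≤ u ∧ u ≤ u1 ∧ s t = P u := by
    intro c hc
    induction hc with
    | refl =>
      obtain ⟨k1, k2, k3, k4, k5, k6⟩ := h0
      refine ⟨0, fun _ => x1, fun _ => p1, fun _ => P s1, ⟨fun t _ => ⟨k1, k2⟩, fun t _ => k5,
        fun t _ => k6, fun t ht => absurd ht (Nat.not_lt_zero t)⟩, rfl, rfl, rfl, rfl, rfl,
        fun t _ => ⟨s1, k3, k4, rfl⟩⟩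
    | @tail c c' _ hst ih =>
      obtain ⟨n, x, p, s, hw, e1, e2, e3, e4, e5, e6⟩ := ih
      obtain ⟨⟨-, -, j3, j4, -, -⟩, ⟨k1, k2, k3, k4, k5, k6⟩, hcase⟩ := hst
      have hne : ∀ t, t ≤ n → t ≠ n + 1 := fun t ht h => by omega
      refine ⟨n + 1, fun t => if t = n + 1 then c'.1 else x t,
        fun t => if t = n + 1 then c'.2.1 else p t,
        fun t => if t = n + 1 then P c'.2.2 else s t, ⟨fun t ht => ?_, fun t ht => ?_,
          fun t ht => ?_, fun t ht => ?_⟩, ?_, ?_, ?_, ?_, ?_, fun t ht => ?_⟩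
      · by_cases h1 : t = n + 1
        · simp only [if_pos h1]
          exact ⟨k1, k2⟩
        · simp only [if_neg h1]
          exact hw.mem t (by omega)
      · by_cases h1 : t = n + 1
        · simp only [if_pos h1]
          exact k5
        · simp only [if_neg h1]
          exact hw.far t (by omega)
      · by_cases h1 : t = n + 1
        · simp only [if_pos h1]
          exact k6
        · simp only [if_neg h1]
          exact hw.near t (by omega)
      · by_cases h1 : t = n
        · subst h1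
          simp only [if_neg (hne t le_rfl), if_true]
          rw [e3, e4, e5]
          rcases hcase with ⟨a1, a2, a3⟩ | ⟨a1, a2, a3⟩
          · left
            refine ⟨a1, a2, ?_⟩
            rw [a3]
          · right
            refine ⟨a1, a2, ?_⟩
            have hcs : c'.2.2 = c.2.2 ∨ c'.2.2 = c.2.2 + 1 ∨ c.2.2 = c'.2.2 + 1 := by
              unfold Nr at a3
              omega
            rcases hcs with b1 | b1 | b1
            · rw [b1]
              unfold Nr
              omega
            · rw [b1]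
              exact hP _ j3 (by omega)
            · rw [b1]
              have b2 := hP _ k3 (by omega)
              unfold Nr at b2 ⊢
              omega
        · simp only [if_neg (show t ≠ n + 1 by omega), if_neg (show t + 1 ≠ n + 1 by omega)]
          exact hw.step t (by omega)
      · simp only [if_neg (show (0 : ℕ) ≠ n + 1 by omega)]
        exact e1
      · simp only [if_neg (show (0 : ℕ) ≠ n + 1 by omega)]
        exact e2
      · simp only [if_true]
      · simp only [if_true]
      · simp only [if_true]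
      · by_cases h1 : t = n + 1
        · simp only [if_pos h1]
          exact ⟨c'.2.2, k3, k4, rfl⟩
        · simp only [if_neg h1]
          exact e6 t (by omega)
  obtain ⟨n, x, p, s, hw, e1, e2, e3, e4, -, e6⟩ := key _ h
  exact ⟨n, x, p, s, hw, e1, e2, e3, e4, e6⟩

end Pool.Agent.Lib.MP_40f35d_gt.Sw
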