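import Pool.Agent.Lib.MP_40f35d_gt.Sw.Defs2

/-!
Arcs of a tree, the projection onto an arc, and cuts of an arc into pieces.
-/

set_option autoImplicit false

open Set Topology

namespace Pool.Agent.Lib.MP_40f35d_gt.Sw

open Pool.Agent.Lib.MP_40f35d_gt.H

namespace Gr

variable {V : Type} {G : SimpleGraph V}

/-- An arc `q` of the graph together with the projection onto it. -/
structure Arc (G : SimpleGraph V) (a b : V) (n : ℕ) (q : ℕ → V) (pr : V → ℕ) : Prop where
  q0 : q 0 = a
  qn : q n = b
  adj : ∀ i < n, G.Adj (q i) (q (i + 1))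
  pq : ∀ i ≤ n, pr (q i) = i
  stp : ∀ x y, G.Adj x y → pr x = pr y ∨
    ∃ i < n, (x = q i ∧ y = q (i + 1)) ∨ (x = q (i + 1) ∧ y = q i)

/-- The side of the edge number `i` of the arc. -/
def Sd (G : SimpleGraph V) (q : ℕ → V) (i : ℕ) (x : V) : Prop :=
  (G.deleteEdges {s(q i, q (i + 1))}).Reachable (q (i + 1)) x

theorem sd_adj (q : ℕ → V) (i : ℕ) {x y : V} (h : G.Adj x y)
    (hne : s(x, y) ≠ s(q i, q (i + 1))) : Sd G q i x ↔ Sd G q i y := by
  have h1 : (G.deleteEdges {s(q i, q (i + 1))}).Adj x y := by
    rw [SimpleGraph.deleteEdges_adj]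
    exact ⟨h, fun h2 => hne h2⟩
  exact ⟨fun h2 => h2.trans h1.reachable, fun h2 => h2.trans h1.symm.reachable⟩

theorem exists_arc (hG : G.IsTree) (a b : V) : ∃ (n : ℕ) (q : ℕ → V) (pr : V → ℕ),
    Arc G a b n q pr := by
  classical
  obtain ⟨p0⟩ := hG.1.preconnected a b
  set p := p0.bypass with hp
  have hpath : p.IsPath := p0.bypass_isPath
  set n := p.length with hn
  set q : ℕ → V := p.getVert with hq
  have hadj : ∀ i < n, G.Adj (q i) (q (i + 1)) := fun i hi => p.adj_getVert_succ hi
  have hinj : ∀ i ≤ n, ∀ j ≤ n, q i = q j → i = j := fun i hi j hj h =>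
    hpath.getVert_injOn hi hj h
  have hbr : ∀ i < n, ¬ Sd G q i (q i) := by
    intro i hi h
    have h1 := (SimpleGraph.isAcyclic_iff_forall_adj_isBridge.1 hG.2) (hadj i hi)
    rw [SimpleGraph.isBridge_iff] at h1
    exact h1 h.symm
  have hsym : ∀ i < n, ∀ j < n, i ≠ j → s(q j, q (j + 1)) ≠ s(q i, q (i + 1)) := by
    intro i hi j hj hne h
    rw [Sym2.eq_iff] at h
    rcases h with ⟨h1, h2⟩ | ⟨h1, h2⟩
    · exact hne (hinj i (by omega) j (by omega) h1.symm)
    · have h3 := hinj j (by omega) (i + 1) (by omega) h1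
      have h4 := hinj (j + 1) (by omega) i (by omega) h2
      omega
  have hup : ∀ i < n, ∀ d, i + 1 + d ≤ n → Sd G q i (q (i + 1 + d)) := by
    intro i hi d
    induction d with
    | zero => intro _; exact SimpleGraph.Reachable.refl _
    | succ d ih =>
      intro hd
      have h1 := ih (by omega)
      exact (sd_adj q i (hadj (i + 1 + d) (by omega))
        (hsym i hi (i + 1 + d) (by omega) (by omega))).1 h1
  have hdn : ∀ i < n, ∀ d, d ≤ i → ¬ Sd G q i (q (i - d)) := by
    intro i hi d
    induction d with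
    | zero => intro _; exact hbr i hi
    | succ d ih =>
      intro hd h1
      refine ih (by omega) ?_
      have h2 := (sd_adj q i (hadj (i - (d + 1)) (by omega))
        (hsym i hi (i - (d + 1)) (by omega) (by omega))).1 h1
      rwa [show i - (d + 1) + 1 = i - d by omega] at h2
  refine ⟨n, q, fun x => ((Finset.range n).filter (fun i => Sd G q i x)).card,
    p.getVert_zero, p.getVert_length, hadj, ?_, ?_⟩
  · intro j hj
    have h1 : (Finset.range n).filter (fun i => Sd G q i (q j)) = Finset.range j := by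
      ext i
      rw [Finset.mem_filter, Finset.mem_range, Finset.mem_range]
      constructor
      · rintro ⟨h1, h2⟩
        by_contra h3
        have h4 := hdn i h1 (i - j) (by omega)
        rw [show i - (i - j) = j by omega] at h4
        exact h4 h2
      · intro h1
        refine ⟨by omega, ?_⟩
        have h2 := hup i (by omega) (j - (i + 1)) (by omega)
        rwa [show i + 1 + (j - (i + 1)) = j by omega] at h2
    show ((Finset.range n).filter (fun i => Sd G q i (q j))).card = j
    rw [h1, Finset.card_range]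
  · intro x y hxy
    by_cases h : ∃ i < n, s(x, y) = s(q i, q (i + 1))
    · obtain ⟨i, hi, h1⟩ := h
      rw [Sym2.eq_iff] at h1
      exact Or.inr ⟨i, hi, h1⟩
    · left
      push Not at h
      have h1 : (Finset.range n).filter (fun i => Sd G q i x) =
          (Finset.range n).filter (fun i => Sd G q i y) := by
        refine Finset.filter_congr fun i hi => ?_
        exact sd_adj q i hxy (h i (Finset.mem_range.1 hi))
      show ((Finset.range n).filter (fun i => Sd G q i x)).card =
        ((Finset.range n).filter (fun i => Sd G q i y)).card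
      rw [h1]

theorem Arc.walk {a b : V} {n : ℕ} {q : ℕ → V} {pr : V → ℕ} (A : Arc G a b n q pr)
    {x y : V} (p : G.Walk x y) (i : ℕ) (hx : pr x ≤ i) (hy : i ≤ pr y)
    (hxi : pr x = i → x = q i) : q i ∈ p.support := by
  induction p with
  | nil =>
    have h1 := hxi (by omega)
    rw [← h1]
    simp
  | @cons x z y h p ih =>
    rw [SimpleGraph.Walk.support_cons]
    by_cases h1 : pr x = i
    · rw [← hxi h1]
      exact List.mem_cons_self
    · refine List.mem_cons_of_mem _ ?_
      rcases A.stp x z h with h2 | ⟨k, hk, ⟨h2, h3⟩ | ⟨h2, h3⟩⟩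
      · exact ih (by omega) hy (fun h3 => absurd (h2.trans h3) h1)
      · have h4 := A.pq k (by omega)
        have h5 := A.pq (k + 1) (by omega)
        rw [← h2] at h4
        rw [← h3] at h5
        refine ih (by omega) hy (fun h6 => ?_)
        rw [← h6, h5]
        exact h3
      · have h4 := A.pq k (by omega)
        have h5 := A.pq (k + 1) (by omega)
        rw [← h3] at h4
        rw [← h2] at h5
        refine ih (by omega) hy (fun h6 => ?_)
        rw [← h6, h4]
        exact h3

theorem Arc.btw {a b : V} {n : ℕ} {q : ℕ → V} {pr : V → ℕ} (A : Arc G a b n q pr)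
    {i j k : ℕ} (h1 : i ≤ j) (h2 : j ≤ k) (h3 : k ≤ n) : Btw G (q i) (q k) (q j) := by
  intro p
  refine A.walk p j ?_ ?_ ?_
  · rw [A.pq i (by omega)]
    exact h1
  · rw [A.pq k h3]
    exact h2
  · intro h4
    rw [A.pq i (by omega)] at h4
    rw [h4]

theorem btw_symm {a b v : V} (h : Btw G a b v) : Btw G b a v := by
  intro p
  have h1 := h p.reverse
  rwa [SimpleGraph.Walk.support_reverse, List.mem_reverse] at h1

theorem unc_symm {near : V → ℕ → Prop} {W : ℕ → V} {L : ℕ} {a c : V}
    (h : Unc G near W L a c) : Unc G near W L c a := by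
  obtain ⟨u, hu, v, hv, h1, h2, h3⟩ := h
  refine ⟨v, hv, u, hu, h2, h1, ?_⟩
  rwa [min_comm, max_comm]

theorem pieces_of {near : V → ℕ → Prop} {W : ℕ → V} {L : ℕ} (k : ℕ) : ∀ (v : ℕ → V),
    (∀ r < k, Btw G (v r) (v k) (v (r + 1)) ∧ Unc G near W L (v r) (v (r + 1))) →
    Pieces G near W L k (v 0) (v k) := by
  induction k with
  | zero => intro v _; rfl
  | succ k ih =>
    intro v h
    exact ⟨v 1, (h 0 (by omega)).1, (h 0 (by omega)).2,
      ih (fun r => v (r + 1)) (fun r hr => h (r + 1) (by omega))⟩

end Gr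

end Pool.Agent.Lib.MP_40f35d_gt.Sw
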