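import Pool.Agent.Lib.MP_40f35d_gt.Sw.Defs

set_option autoImplicit false

open Set Topology

namespace Pool.Agent.Lib.MP_40f35d_gt.Sw

open Pool.Agent.Lib.MP_40f35d_gt.H

/-- Two walks `s` (length `n`) and `s'` (length `n'`) can be synchronised. -/
def Sync (s : ℕ → ℕ) (n : ℕ) (s' : ℕ → ℕ) (n' : ℕ) : Prop :=
  ∃ (K : ℕ) (a b : ℕ → ℕ), a 0 = 0 ∧ b 0 = 0 ∧ a K = n ∧ b K = n' ∧
    (∀ k < K, Nr (a k) (a (k + 1)) ∧ Nr (b k) (b (k + 1))) ∧
    ∀ k ≤ K, a k ≤ n ∧ b k ≤ n' ∧ s (a k) = s' (b k)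

/-- A path of the game with a reader in the window `D`, in terms of the states `s` and of the
balls `B s` of labels. -/
structure WPath {T V : Type} (Gm : SimpleGraph V) (g : V → T) (B : ℕ → Set T) (D : Set V)
    (n : ℕ) (x p : ℕ → V) (s : ℕ → ℕ) : Prop where
  mem : ∀ t ≤ n, x t ∈ D ∧ p t ∈ D
  far : ∀ t ≤ n, g (x t) ∉ B (s t)
  near : ∀ t ≤ n, g (p t) ∈ B (s t)
  step : ∀ t < n, (Gm.Adj (x t) (x (t + 1)) ∧ p t = p (t + 1) ∧ s t = s (t + 1)) ∨
    (x t = x (t + 1) ∧ Ea Gm (p t) (p (t + 1)) ∧ Nr (s t) (s (t + 1)))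

/-- The vertices `a` and `c` are visited by the walk `W` at times between which the window is not
crossed. -/
def Unc {V : Type} (G : SimpleGraph V) (near : V → ℕ → Prop) (W : ℕ → V) (L : ℕ) (a c : V) :
    Prop :=
  ∃ u ≤ L, ∃ v ≤ L, W u = a ∧ W v = c ∧
    ¬ Crossed G near (W '' Icc (min u v) (max u v)) (min u v) (max u v)

/-- The arc from `a` to `b` is cut into at most `k` uncrossed pieces. -/
def Pieces {V : Type} (G : SimpleGraph V) (near : V → ℕ → Prop) (W : ℕ → V) (L : ℕ) :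
    ℕ → V → V → Prop
  | 0, a, b => a = b
  | k + 1, a, b => ∃ c, Btw G a b c ∧ Unc G near W L a c ∧ Pieces G near W L k c b

end Pool.Agent.Lib.MP_40f35d_gt.Sw
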