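import Pool.Agent.Lib.MP_40f35d_gt.Sw.Defs
import Pool.Agent.Lib.MP_40f35d_gt.Dn.Main

/-!
# Readings of arcs of tiles by words of bounded length make `K` weakly chainable
-/

set_option autoImplicit false

open Set Topology

namespace Pool.Agent.Lib.MP_40f35d_gt.Sw

open Pool.Agent.Lib.MP_40f35d_gt.H Pool.Agent.Lib.MP_40f35d_gt.Dn

/-- The length of a path in a tree is the distance of its ends. -/
theorem eng_len {V : Type} {G : SimpleGraph V} (hG : G.IsTree) {u v : V} {P : G.Walk u v}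
    (hP : P.IsPath) : P.length = G.dist u v := by
  obtain ⟨p, hp⟩ := hG.connected.exists_walk_length_eq_dist u v
  have h1 := (hG.existsUnique_path u v).unique hP (p.isPath_of_length_eq_dist hp)
  rw [h1, hp]

theorem eng_dist {V : Type} {G : SimpleGraph V} (hG : G.IsTree) {u v : V} {P : G.Walk u v}
    (hP : P.IsPath) {i : ℕ} (hi : i ≤ P.length) : G.dist u (P.getVert i) = i := by
  have h1 := eng_len hG (hP.take i)
  rw [SimpleGraph.Walk.take_length, min_eq_left hi] at h1
  exact h1.symm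

/-- Equal or adjacent vertices have distance at most one. -/
theorem ea_dist {V : Type} {G : SimpleGraph V} {a b : V} (h : Ea G a b) : G.dist a b ≤ 1 := by
  rcases h with h | h
  · rw [h, SimpleGraph.dist_self]
    exact Nat.zero_le 1
  · exact (SimpleGraph.dist_eq_one_iff_adj.2 h).le

theorem ea_nr {V : Type} {G : SimpleGraph V} (hG : G.Connected) (u : V) {a b : V}
    (h : Ea G a b) : Nr (G.dist u a) (G.dist u b) := by
  have h1 := ea_dist h
  have h2 : G.dist b a ≤ 1 := by
    rw [SimpleGraph.dist_comm]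
    exact h1
  have h3 := hG.dist_triangle (u := u) (v := a) (w := b)
  have h4 := hG.dist_triangle (u := u) (v := b) (w := a)
  exact ⟨by omega, by omega⟩

/-- The points of a connected set give a walk in the tree of tiles. -/
theorem eng_walk {E : Type} [MetricSpace E] {X : Set E} (Lv : Levels X) {K : Set E}
    (hKX : K ⊆ X) (hK : IsPreconnected K) (m : ℕ) {x y : E} (hx : x ∈ K) (hy : y ∈ K) :
    ∃ w : (Lv.G m).Walk (Lv.t m x) (Lv.t m y), ∀ v ∈ w.support, ∃ p ∈ K, Lv.t m p = v := by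
  obtain ⟨δ, hδ, h1⟩ := Lv.loc m
  refine hK.induction₂ (fun x y => ∃ w : (Lv.G m).Walk (Lv.t m x) (Lv.t m y),
    ∀ v ∈ w.support, ∃ p ∈ K, Lv.t m p = v) ?_ ?_ ?_ hx hy
  · intro x hx
    have h2 : ∀ᶠ y in 𝓝[K] x, dist y x < δ :=
      mem_nhdsWithin_of_mem_nhds (Metric.ball_mem_nhds x hδ)
    filter_upwards [h2, self_mem_nhdsWithin] with y hy hyK
    rcases h1 x (hKX hx) y (hKX hyK) (by rw [dist_comm]; exact hy) with h3 | h3
    · rw [← h3]
      refine ⟨SimpleGraph.Walk.nil, fun v hv => ⟨x, hx, ?_⟩⟩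
      rw [SimpleGraph.Walk.support_nil, List.mem_singleton] at hv
      exact hv.symm
    · refine ⟨SimpleGraph.Walk.cons h3 SimpleGraph.Walk.nil, fun v hv => ?_⟩
      rw [SimpleGraph.Walk.support_cons, SimpleGraph.Walk.support_nil, List.mem_cons,
        List.mem_singleton] at hv
      rcases hv with hv | hv
      · exact ⟨x, hx, hv.symm⟩
      · exact ⟨y, hyK, hv.symm⟩
  · rintro x y z - - - ⟨w, hw⟩ ⟨w', hw'⟩
    refine ⟨w.append w', fun v hv => ?_⟩
    rw [SimpleGraph.Walk.mem_support_append_iff] at hv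
    rcases hv with hv | hv
    · exact hw v hv
    · exact hw' v hv
  · rintro x y - - ⟨w, hw⟩
    refine ⟨w.reverse, fun v hv => hw v ?_⟩
    rw [SimpleGraph.Walk.support_reverse, List.mem_reverse] at hv
    exact hv

/-- **Readings of the arcs by words of bounded length make `K` weakly chainable.** -/
theorem wc_of_reads {E : Type} [MetricSpace E] (X : Set E) (Lv : Levels X) (K : Set E)
    (hKX : K ⊆ X) (hK : IsCompact K) (hKc : IsConnected K)
    (hR : ∀ n, ∃ B : ℕ, ∀ m, n ≤ m → ∀ a ∈ K, ∀ x ∈ K, ∃ ω : List (Lv.T n), ω.length ≤ B ∧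
      ω ≠ [] ∧ Reads (Lv.G m) (Lv.g m n) (Lv.G n) ω (Lv.t m a) (Lv.t m x)) : WC K := by
  classical
  obtain ⟨z, hz⟩ := hKc.nonempty
  have hC : 0 ≤ Lv.C := by
    have h1 := Lv.size 0 z (hKX hz) z (hKX hz)
    rw [dist_self, SimpleGraph.dist_self, Nat.cast_zero, zero_add, one_mul, pow_zero,
      div_one] at h1
    exact h1
  have hsz : ∀ n : ℕ, Lv.C / 2 ^ n = Lv.C * (1 / 2 : ℝ) ^ n := by
    intro n
    rw [one_div, inv_pow]
    rfl
  choose B hB using hR
  have hcode : ∀ n, ∃ (N : ℕ) (e : Lv.T n → ℕ), Function.Injective e ∧ ∀ a, e a < N := by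
    intro n
    have := Lv.fin n
    exact ⟨Fintype.card (Lv.T n), fun a => (Fintype.equivFin (Lv.T n) a : ℕ),
      fun a b h => (Fintype.equivFin (Lv.T n)).injective (Fin.ext h),
      fun a => (Fintype.equivFin (Lv.T n) a).isLt⟩
  choose N e he heN using hcode
  have hcen : ∀ n l, ∃ y : E, y ∈ X ∧ ∀ a : Lv.T n, e n a = l →
      (∃ y ∈ X, (Lv.G n).dist (Lv.t n y) a ≤ 2) → (Lv.G n).dist (Lv.t n y) a ≤ 2 := by
    intro n l
    by_cases h : ∃ a : Lv.T n, e n a = l ∧ ∃ y ∈ X, (Lv.G n).dist (Lv.t n y) a ≤ 2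
    · obtain ⟨a, h1, y, h2, h3⟩ := h
      refine ⟨y, h2, fun b hb _ => ?_⟩
      have h4 : b = a := he n (hb.trans h1.symm)
      rw [h4]
      exact h3
    · exact ⟨z, hKX hz, fun a ha h1 => absurd ⟨a, ha, h1⟩ h⟩
  choose c hcX hc using hcen
  set eps : ℕ → ℝ := fun n => 5 * Lv.C * (1 / 2 : ℝ) ^ n with heps
  have heps0 : ∀ n, 0 ≤ eps n := fun n => by rw [heps]; positivity
  refine dn K hK z hz eps (summable_geometric_two.mul_left _) heps0 c N B ?_
  intro x hx m
  have hG := Lv.tree m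
  obtain ⟨w, hw⟩ := eng_walk Lv hKX hKc.isPreconnected m hz hx
  set P := w.bypass with hPdef
  have hP : P.IsPath := w.bypass_isPath
  have hPs : ∀ v ∈ P.support, ∃ p ∈ K, Lv.t m p = v := fun v hv =>
    hw v (w.support_bypass_subset_support hv)
  set k := P.length with hk
  have hpt : ∀ i, ∃ p ∈ K, Lv.t m p = P.getVert i := fun i => hPs _ (P.getVert_mem_support i)
  choose p' hp'K hp't using hpt
  set p : ℕ → E := fun i => if i = 0 then z else if i = k + 1 then x else p' i with hp
  have hp0 : p 0 = z := if_pos rfl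
  have hpk : p (k + 1) = x := by
    rw [hp]
    simp
  have hpi : ∀ i, i ≠ 0 → i ≤ k → p i = p' i := by
    intro i h1 h2
    have h3 : i ≠ k + 1 := by omega
    rw [hp]
    simp only [h1, h3, if_false]
  have hpK : ∀ i, i ≤ k + 1 → p i ∈ K := by
    intro i hi
    rcases Nat.eq_zero_or_pos i with h1 | h1
    · rw [h1, hp0]
      exact hz
    · rcases Nat.lt_or_ge k i with h2 | h2
      · have h3 : i = k + 1 := by omega
        rw [h3, hpk]
        exact hx
      · rw [hpi i (by omega) h2]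
        exact hp'K i
  have hptile : ∀ i, i ≤ k + 1 → Lv.t m (p i) = P.getVert (min i k) := by
    intro i hi
    rcases Nat.eq_zero_or_pos i with h1 | h1
    · rw [h1, hp0, Nat.zero_min, P.getVert_zero]
    · rcases Nat.lt_or_ge k i with h2 | h2
      · have h3 : i = k + 1 := by omega
        rw [h3, hpk, min_eq_right (Nat.le_succ k), P.getVert_length]
      · rw [hpi i (by omega) h2, hp't, min_eq_left h2]
  have hstep : ∀ i, i < k + 1 → ∀ n, n ≤ m → dist (p i) (p (i + 1)) ≤ eps n := by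
    intro i hi n hn
    have h1 := Lv.size m (p i) (hKX (hpK i (by omega))) (p (i + 1)) (hKX (hpK (i + 1) (by omega)))
    have h2 : Ea (Lv.G m) (Lv.t m (p i)) (Lv.t m (p (i + 1))) := by
      rw [hptile i (by omega), hptile (i + 1) (by omega)]
      rcases Nat.lt_or_ge i k with h3 | h3
      · rw [min_eq_left h3.le, min_eq_left (Nat.succ_le_of_lt h3)]
        exact Or.inr (P.adj_getVert_succ h3)
      · rw [min_eq_right h3, min_eq_right (by omega)]
        exact Or.inl rfl
    have h3 := ea_dist h2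
    have h4 : ((Lv.G m).dist (Lv.t m (p i)) (Lv.t m (p (i + 1))) : ℝ) ≤ 1 := by
      exact_mod_cast h3
    have h5 : (0 : ℝ) ≤ Lv.C / 2 ^ m := by positivity
    have h6 : Lv.C / 2 ^ m ≤ Lv.C * (1 / 2 : ℝ) ^ n := by
      rw [hsz]
      exact mul_le_mul_of_nonneg_left (pow_le_pow_of_le_one (by norm_num) (by norm_num) hn) hC
    have h7 : 0 ≤ Lv.C * (1 / 2 : ℝ) ^ n := by positivity
    have h8 : eps n = 5 * (Lv.C * (1 / 2 : ℝ) ^ n) := by
      rw [heps]
      ring
    rw [h8]
    nlinarith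
  refine ⟨k + 1, p, hpK, hp0, hpk, hstep, fun n hn => ?_⟩
  obtain ⟨ω, hω1, hω2, R, q, t, hq0, hqR, ht0, htR, hqt, hr⟩ := hB n m hn z hz x hx
  have hlen : 0 < ω.length := List.length_pos_iff.2 hω2
  have hdist : ∀ i, i ≤ k → (Lv.G m).dist (Lv.t m z) (P.getVert i) = i := fun i hi =>
    eng_dist hG hP hi
  -- the positions on the arc
  set a : ℕ → ℕ := fun r => if r ≤ R then (Lv.G m).dist (Lv.t m z) (q r) else k + 1 with ha
  set t' : ℕ → ℕ := fun r => if r ≤ R then t r else ω.length - 1 with ht'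
  have ha1 : ∀ r, r ≤ R → a r = (Lv.G m).dist (Lv.t m z) (q r) := fun r hr => if_pos hr
  have ha2 : a (R + 1) = k + 1 := if_neg (by omega)
  have ht1 : ∀ r, r ≤ R → t' r = t r := fun r hr => if_pos hr
  have ht2 : t' (R + 1) = ω.length - 1 := if_neg (by omega)
  have hpos : ∀ r, r ≤ R → a r ≤ k ∧ P.getVert (a r) = q r := by
    intro r hrR
    have h1 := (hr r hrR).1 P
    rw [SimpleGraph.Walk.mem_support_iff_exists_getVert] at h1
    obtain ⟨i, h2, h3⟩ := h1
    rw [ha1 r hrR, ← h2, hdist i h3]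
    exact ⟨h3, rfl⟩
  have haR : a R = k := by
    rw [ha1 R le_rfl, hqR, ← P.getVert_length]
    exact hdist k le_rfl
  refine ⟨ω.map (e n), by rw [List.length_map]; exact hω1, by simpa using hω2, ?_, R + 1, a, t',
    ⟨?_, ha2, ?_, ?_⟩, ⟨?_, ?_, ?_, ?_⟩, ?_⟩
  · intro l hl
    obtain ⟨b, -, rfl⟩ := List.mem_map.1 hl
    exact heN n b
  · rw [ha1 0 (Nat.zero_le _), hq0, SimpleGraph.dist_self]
  · intro r hrR
    rcases Nat.lt_or_ge R r with h1 | h1
    · have h2 : r = R + 1 := by omega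
      rw [h2, ha2]
    · have h2 := (hpos r h1).1
      omega
  · intro r hrR
    rcases Nat.lt_or_ge r R with h1 | h1
    · rw [ha1 r h1.le, ha1 (r + 1) h1]
      exact ea_nr hG.connected _ (hqt r h1).1
    · have h2 : r = R := by omega
      rw [h2, ha2, haR]
      exact ⟨by omega, by omega⟩
  · rw [ht1 0 (Nat.zero_le _), ht0]
  · rw [List.length_map]
    exact ht2
  · intro r hrR
    rw [List.length_map]
    rcases Nat.lt_or_ge R r with h1 | h1
    · have h2 : r = R + 1 := by omega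
      rw [h2, ht2]
    · rw [ht1 r h1]
      obtain ⟨b, hb, -⟩ := (hr r h1).2
      have h3 := (List.getElem?_eq_some_iff.1 hb).1
      omega
  · intro r hrR
    rcases Nat.lt_or_ge r R with h1 | h1
    · rw [ht1 r h1.le, ht1 (r + 1) h1]
      exact (hqt r h1).2
    · have h2 : r = R := by omega
      rw [h2, ht2, ht1 R le_rfl, htR]
      exact ⟨by omega, by omega⟩
  · -- the distance to the places
    have key : ∀ i r, i ≤ k + 1 → r ≤ R → P.getVert (min i k) = q r → ∀ b, ω[t r]? = some b →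
        (Lv.G n).dist (Lv.g m n (q r)) b ≤ 2 → dist (p i) (c n (e n b)) ≤ eps n := by
      intro i r hi hrR h1 b hb h2
      have h3 : Lv.t n (p i) = Lv.g m n (q r) := by
        rw [← h1, ← hptile i hi, Lv.t_g m n hn _ (hKX (hpK i hi))]
      have h4 := hc n (e n b) b rfl ⟨p i, hKX (hpK i hi), by rw [h3]; exact h2⟩
      have h5 : (Lv.G n).dist (Lv.t n (p i)) (Lv.t n (c n (e n b))) ≤ 4 := by
        have h6 := (Lv.tree n).connected.dist_triangle (u := Lv.t n (p i)) (v := b)
          (w := Lv.t n (c n (e n b)))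
        have h7 : (Lv.G n).dist b (Lv.t n (c n (e n b))) ≤ 2 := by
          rw [SimpleGraph.dist_comm]
          exact h4
        rw [h3] at h6 ⊢
        omega
      have h8 := Lv.size n (p i) (hKX (hpK i hi)) (c n (e n b)) (hcX n _)
      have h9 : ((Lv.G n).dist (Lv.t n (p i)) (Lv.t n (c n (e n b))) : ℝ) ≤ 4 := by
        exact_mod_cast h5
      have h10 : (0 : ℝ) ≤ Lv.C / 2 ^ n := by positivity
      have h11 : eps n = 5 * (Lv.C / 2 ^ n) := by
        rw [hsz, heps]
        ring
      rw [h11]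
      nlinarith
    intro r hrR
    rcases Nat.lt_or_ge R r with h1 | h1
    · have h2 : r = R + 1 := by omega
      obtain ⟨b, hb, hb2⟩ := (hr R le_rfl).2
      refine ⟨e n b, ?_, ?_⟩
      · rw [h2, ht2, ← htR, List.getElem?_map, hb]
        rfl
      · rw [h2, ha2]
        refine key (k + 1) R le_rfl le_rfl ?_ b hb hb2
        rw [min_eq_right (Nat.le_succ k), ← haR]
        exact (hpos R le_rfl).2
    · obtain ⟨b, hb, hb2⟩ := (hr r h1).2
      obtain ⟨h3, h4⟩ := hpos r h1
      refine ⟨e n b, ?_, ?_⟩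
      · rw [ht1 r h1, List.getElem?_map, hb]
        rfl
      · refine key (a r) r (by omega) h1 ?_ b hb hb2
        rw [min_eq_left h3]
        exact h4

end Pool.Agent.Lib.MP_40f35d_gt.Sw
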