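import Pool.Agent.Lib.MP_40f35d_gt.Sw.Defs2
import Pool.Agent.Lib.MP_40f35d_gt.Gs.Lev
import Pool.Agent.Lib.MP_40f35d_gt.Gs.Mc

/-!
# MP_40f35d_gt, project Sw: row C0, existence of a GS path in a crossed window
-/

set_option autoImplicit false

open Set Relation

namespace Pool.Agent.Lib.MP_40f35d_gt.Sw

open Pool.Agent.Lib.MP_40f35d_gt.H Pool.Agent.Lib.MP_40f35d_gt.Gs

variable {V : Type}

/-- In a tree a vertex `a` has only one neighbour in a connected set which avoids `a`. -/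
theorem ex_leaf {G : SimpleGraph V} (hG : G.IsTree) {W : ℕ → V} {i0 i1 : ℕ} {a : V}
    (hW : ∀ u, i0 ≤ u → u < i1 → Ea G (W u) (W (u + 1))) (ha : ∀ u, i0 ≤ u → u ≤ i1 → W u ≠ a)
    {u v : ℕ} (hu : i0 ≤ u) (hu' : u ≤ i1) (hv : i0 ≤ v) (hv' : v ≤ i1)
    (h1 : G.Adj a (W u)) (h2 : G.Adj a (W v)) : W v = W u := by
  by_contra hne
  have hbr := SimpleGraph.isAcyclic_iff_forall_adj_isBridge.1 hG.isAcyclic h2
  rw [SimpleGraph.isBridge_iff] at hbr
  apply hbr
  have hreach : ∀ k, i0 + k ≤ i1 →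
      (G.deleteEdges {s(a, W v)}).Reachable (W i0) (W (i0 + k)) := by
    intro k
    induction k with
    | zero => intro _; exact SimpleGraph.Reachable.refl _
    | succ k ih =>
      intro hk
      refine (ih (by omega)).trans ?_
      rcases hW (i0 + k) (by omega) (by omega) with h3 | h3
      · rw [show i0 + (k + 1) = i0 + k + 1 from rfl, ← h3]
      · refine SimpleGraph.Adj.reachable ?_
        rw [SimpleGraph.deleteEdges_adj]
        refine ⟨h3, ?_⟩
        rw [mem_singleton_iff, Sym2.eq_iff]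
        rintro (⟨h4, -⟩ | ⟨-, h4⟩)
        · exact ha _ (by omega) (by omega) h4
        · exact ha _ (by omega) (by omega) h4
  have e1 := hreach (u - i0) (by omega)
  have e2 := hreach (v - i0) (by omega)
  rw [show i0 + (u - i0) = u from by omega] at e1
  rw [show i0 + (v - i0) = v from by omega] at e2
  have e3 : (G.deleteEdges {s(a, W v)}).Reachable a (W u) := by
    refine SimpleGraph.Adj.reachable ?_
    rw [SimpleGraph.deleteEdges_adj]
    refine ⟨h1, ?_⟩
    rw [mem_singleton_iff, Sym2.eq_iff]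
    rintro (⟨-, h4⟩ | ⟨h4, -⟩)
    · exact hne h4.symm
    · exact ha v hv hv' h4.symm
  exact e3.trans (e1.symm.trans e2)

/-- The far cells of the window with one all far row before and one all far row after it. -/
def exF (near : V → ℕ → Prop) (D : Set V) (j0 R : ℕ) (p : D) (r : ℕ) : Prop :=
  r = 0 ∨ R ≤ r ∨ ¬ near p.1 (j0 + r - 1)

/-- Restriction of a crossing to a shorter time interval. -/
theorem ex_restrict {G : SimpleGraph V} {near : V → ℕ → Prop} {D : Set V} {j0 j1 R : ℕ}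
    (hR : R = j1 - j0 + 2) {S : Set D} {i0 i1 : ℕ} (h0 : j0 ≤ i0) (h01 : i0 < i1) (h1 : i1 ≤ j1)
    {D' : Set V} (hD : ∀ p ∈ S, (p : V) ∈ D')
    (h : Crs (G.induce D) (exF near D j0 R) R S) : Crossed G near D' i0 i1 := by
  classical
  obtain ⟨p, hp, q, hq, h⟩ := h
  obtain ⟨K, f, f0, fK, hf⟩ := exists_seq h
  obtain ⟨r0, hr0⟩ : ∃ r0, r0 = i0 - j0 + 1 := ⟨_, rfl⟩
  obtain ⟨r1, hr1⟩ : ∃ r1, r1 = i1 - j0 + 1 := ⟨_, rfl⟩
  have hstep : ∀ k < K, (f k).2 ≤ (f (k + 1)).2 + 1 ∧ (f (k + 1)).2 ≤ (f k).2 + 1 := by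
    intro k hk
    have h2 := (hf k hk).2.2.2
    omega
  have g0 : (f 0).2 = 0 := by rw [f0]
  have gK : (f K).2 = R := by rw [fK]
  -- the last time in the rows up to `r0`
  obtain ⟨s0, hs0, a1, a2⟩ : ∃ s0 ≤ K, (f s0).2 ≤ r0 ∧ ∀ t, s0 < t → t ≤ K → r0 < (f t).2 := by
    refine ⟨Nat.findGreatest (fun t => (f t).2 ≤ r0) K, Nat.findGreatest_le K, ?_, ?_⟩
    · exact Nat.findGreatest_spec (P := fun t => (f t).2 ≤ r0) (Nat.zero_le K) (by omega)
    · intro t h3 h4
      exact not_le.1 fun h5 => Nat.findGreatest_is_greatest h3 h4 h5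
  have hs0K : s0 < K := by
    rcases Nat.lt_or_ge s0 K with h2 | h2
    · exact h2
    · have h3 : s0 = K := by omega
      rw [h3] at a1
      omega
  have a3 : (f s0).2 = r0 := by
    have h2 := a2 (s0 + 1) (by omega) (by omega)
    have h3 := hstep s0 hs0K
    omega
  have hex : ∃ n, r1 ≤ (f (s0 + n)).2 ∧ s0 + n ≤ K :=
    ⟨K - s0, by rw [show s0 + (K - s0) = K from by omega]; omega, by omega⟩
  obtain ⟨b1, b2⟩ := Nat.find_spec hex
  have b3 : ∀ n < Nat.find hex, (f (s0 + n)).2 < r1 := by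
    intro n hn
    by_contra h2
    exact Nat.find_min hex hn ⟨not_lt.1 h2, by omega⟩
  obtain ⟨n1, hn1⟩ : ∃ n1, n1 = Nat.find hex := ⟨_, rfl⟩
  rw [← hn1] at b1 b2 b3
  have hn0 : 0 < n1 := by
    rcases Nat.eq_zero_or_pos n1 with h2 | h2
    · rw [h2, add_zero] at b1
      omega
    · exact h2
  have b4 : (f (s0 + n1)).2 = r1 := by
    have h2 := b3 (n1 - 1) (by omega)
    have h3 := hstep (s0 + (n1 - 1)) (by omega)
    rw [show s0 + (n1 - 1) + 1 = s0 + n1 from by omega] at h3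
    omega
  have hrange : ∀ n ≤ n1, r0 ≤ (f (s0 + n)).2 ∧ (f (s0 + n)).2 ≤ r1 := by
    intro n hn
    constructor
    · rcases Nat.eq_zero_or_pos n with h2 | h2
      · rw [h2, add_zero]
        omega
      · exact (a2 (s0 + n) (by omega) (by omega)).le
    · rcases Nat.lt_or_ge n n1 with h2 | h2
      · exact (b3 n h2).le
      · have h3 : n = n1 := by omega
        rw [h3, b4]
  have hcell : ∀ n ≤ n1, ((f (s0 + n)).1 : V) ∈ D' ∧ i0 ≤ j0 + (f (s0 + n)).2 - 1 ∧
      j0 + (f (s0 + n)).2 - 1 ≤ i1 ∧ ¬ near (f (s0 + n)).1 (j0 + (f (s0 + n)).2 - 1) := by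
    intro n hn
    have h2 := hrange n hn
    obtain ⟨h4, h5⟩ : (f (s0 + n)).1 ∈ S ∧ exF near D j0 R (f (s0 + n)).1 (f (s0 + n)).2 := by
      rcases Nat.lt_or_ge n n1 with h6 | h6
      · have h3 := hf (s0 + n) (by omega)
        exact ⟨h3.1.1, h3.2.2.1.1⟩
      · have h3 := hf (s0 + n - 1) (by omega)
        rw [show s0 + n - 1 + 1 = s0 + n from by omega] at h3
        exact ⟨h3.1.2, h3.2.2.1.2⟩
    refine ⟨hD _ h4, by omega, by omega, ?_⟩
    rcases h5 with h5 | h5 | h5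
    · omega
    · omega
    · exact h5
  have hrtg : ∀ n ≤ n1, ReflTransGen (FarStep G near D' i0 i1)
      (((f s0).1 : V), j0 + (f s0).2 - 1)
      (((f (s0 + n)).1 : V), j0 + (f (s0 + n)).2 - 1) := by
    intro n
    induction n with
    | zero => intro _; exact ReflTransGen.refl
    | succ n ih =>
      intro hn
      refine (ih (by omega)).tail ⟨hcell n (by omega), hcell (n + 1) hn, ?_⟩
      have h2 := hrange n (by omega)
      have h3 := hrange (n + 1) hn
      rcases (hf (s0 + n) (by omega)).2.2.2 with ⟨h4, h5⟩ | ⟨h4, h5⟩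
      · right
        exact ⟨by simp only; rw [h5]; rfl, h4⟩
      · left
        refine ⟨by simp only; rw [h4]; rfl, ?_⟩
        simp only
        rw [show s0 + (n + 1) = s0 + n + 1 from rfl] at *
        omega
  have c0 := hcell 0 (by omega)
  have c1 := hcell n1 le_rfl
  have c2 := hrtg n1 le_rfl
  rw [add_zero, a3, show j0 + r0 - 1 = i0 from by omega] at c0
  rw [b4, show j0 + r1 - 1 = i1 from by omega] at c1
  rw [b4, show j0 + r1 - 1 = i1 from by omega, a3, show j0 + r0 - 1 = i0 from by omega] at c2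
  exact ⟨_, c0.1, _, c1.1, c0.2.2.2, c1.2.2.2, c2⟩

/-- A crossing of the window with the two additional rows. -/
theorem ex_extend {G : SimpleGraph V} {near : V → ℕ → Prop} {D : Set V} {j0 j1 R : ℕ}
    (hR : R = j1 - j0 + 2) (h01 : j0 ≤ j1) (h : Crossed G near D j0 j1) :
    Crs (G.induce D) (exF near D j0 R) R univ := by
  obtain ⟨x, hx, y, hy, nx, ny, h⟩ := h
  have key : ∀ c, ReflTransGen (FarStep G near D j0 j1) (x, j0) c →
      ∃ hc : c.1 ∈ D, j0 ≤ c.2 ∧ c.2 ≤ j1 ∧ ¬ near c.1 c.2 ∧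
      ReflTransGen (Fst (G.induce D) (exF near D j0 R) R univ) (⟨x, hx⟩, 1)
        (⟨c.1, hc⟩, c.2 - j0 + 1) := by
    intro c hc
    induction hc with
    | refl =>
      refine ⟨hx, le_rfl, h01, nx, ?_⟩
      simp only [Nat.sub_self, zero_add]
      exact ReflTransGen.refl
    | @tail c d _ hcd ih =>
      obtain ⟨h1, h2, h3, h4, h5⟩ := ih
      obtain ⟨k1, k2, k3, k4⟩ := hcd.2.1
      refine ⟨k1, k2, k3, k4, h5.tail ⟨⟨trivial, trivial⟩, ⟨by simp only; omega,
        by simp only; omega⟩, ⟨?_, ?_⟩, ?_⟩⟩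
      · right; right
        simp only
        rw [show j0 + (c.2 - j0 + 1) - 1 = c.2 from by omega]
        exact h4
      · right; right
        simp only
        rw [show j0 + (d.2 - j0 + 1) - 1 = d.2 from by omega]
        exact k4
      · rcases hcd.2.2 with ⟨h6, h7⟩ | ⟨h6, h7⟩
        · right
          refine ⟨Subtype.ext h6, ?_⟩
          simp only
          omega
        · left
          refine ⟨h7, ?_⟩
          simp only
          omega
  obtain ⟨_, -, -, -, h5⟩ := key _ h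
  simp only at h5
  refine ⟨⟨x, hx⟩, trivial, ⟨y, hy⟩, trivial, ?_⟩
  have s1 : Fst (G.induce D) (exF near D j0 R) R univ (⟨x, hx⟩, 0) (⟨x, hx⟩, 1) := by
    refine ⟨⟨trivial, trivial⟩, ⟨by simp only; omega, by simp only; omega⟩, ⟨Or.inl rfl, ?_⟩,
      Or.inr ⟨rfl, Or.inl rfl⟩⟩
    right; right
    simp only
    rw [Nat.add_sub_cancel]
    exact nx
  have s2 : Fst (G.induce D) (exF near D j0 R) R univ (⟨y, hy⟩, j1 - j0 + 1) (⟨y, hy⟩, R) := by
    refine ⟨⟨trivial, trivial⟩, ⟨by simp only; omega, le_rfl⟩, ⟨?_, Or.inr (Or.inl le_rfl)⟩,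
      Or.inr ⟨rfl, Or.inl (by simp only; omega)⟩⟩
    right; right
    simp only
    rw [show j0 + (j1 - j0 + 1) - 1 = j1 from by omega]
    exact ny
  exact (ReflTransGen.head s1 h5).tail s2

/-- Row C0. -/
theorem exists_gs {V : Type} (G : SimpleGraph V) (hG : G.IsTree) (near : V → ℕ → Prop)
    (W : ℕ → V) (u0 u1 : ℕ) (h01 : u0 ≤ u1)
    (hW : ∀ u, u0 ≤ u → u < u1 → Ea G (W u) (W (u + 1)))
    (hN : ∀ u, u0 ≤ u → u ≤ u1 → ∀ p, Ea G p (W u) → near p u)
    (hC : Crossed G near (W '' Icc u0 u1) u0 u1) :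
    ∃ (x1 p1 p2 x2 : V) (s1 s2 : ℕ),
      GState near (W '' Icc u0 u1) u0 u1 (x1, p1, s1) ∧
      Relation.ReflTransGen (GStep G near (W '' Icc u0 u1) u0 u1) (x1, p1, s1) (p2, x2, s2) ∧
      Ea G x1 x2 ∧ Ea G p1 p2 ∧
      (x1 = x2 ∨ p1 = p2 ∨ ¬ ((∀ u ∈ Icc u0 u1, (near x1 u ↔ near p2 u)) ∧
        ∀ u ∈ Icc u0 u1, (near x2 u ↔ near p1 u))) := by
  classical
  -- a minimal crossed window
  have hex : ∃ n, ∃ j0 j1, u0 ≤ j0 ∧ j0 ≤ j1 ∧ j1 ≤ u1 ∧ j1 - j0 = n ∧
      Crossed G near (W '' Icc j0 j1) j0 j1 := ⟨_, u0, u1, le_rfl, h01, le_rfl, rfl, hC⟩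
  obtain ⟨j0, j1, hj0, hj, hj1, hn, hcr⟩ := Nat.find_spec hex
  have hmin : ∀ i0 i1, u0 ≤ i0 → i0 ≤ i1 → i1 ≤ u1 → i1 - i0 < j1 - j0 →
      ¬ Crossed G near (W '' Icc i0 i1) i0 i1 := by
    intro i0 i1 h1 h2 h3 h4 h5
    exact Nat.find_min hex (hn ▸ h4) ⟨i0, i1, h1, h2, h3, rfl, h5⟩
  have hW' : ∀ u, j0 ≤ u → u < j1 → Ea G (W u) (W (u + 1)) :=
    fun u h1 h2 => hW u (by omega) (by omega)
  have hN' : ∀ u, j0 ≤ u → u ≤ j1 → ∀ p, Ea G p (W u) → near p u :=
    fun u h1 h2 => hN u (by omega) (by omega)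
  -- the window is not short
  have hlen : j0 + 1 < j1 := by
    obtain ⟨x, ⟨v, ⟨hv1, hv2⟩, rfl⟩, -, -, nx, -⟩ := hcr
    by_contra h1
    apply nx
    refine hN' j0 le_rfl hj _ ?_
    rcases Nat.eq_or_lt_of_le hv1 with h2 | h2
    · rw [h2]
      exact Or.inl rfl
    · have h3 : v = j0 + 1 := by omega
      rw [h3]
      rcases hW' j0 le_rfl (by omega) with h4 | h4
      · exact Or.inl h4.symm
      · exact Or.inr h4.symm
  obtain ⟨D, hD⟩ : ∃ D : Set V, D = W '' Icc j0 j1 := ⟨_, rfl⟩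
  obtain ⟨R, hR⟩ : ∃ R, R = j1 - j0 + 2 := ⟨_, rfl⟩
  rw [← hD] at hcr
  have hmem : ∀ u, j0 ≤ u → u ≤ j1 → W u ∈ D := fun u h1 h2 => hD ▸ ⟨u, ⟨h1, h2⟩, rfl⟩
  have hcrs := ex_extend (R := R) hR hj hcr
  -- the ends are visited once
  have ha : ∀ u, j0 + 1 ≤ u → u ≤ j1 → W u ≠ W j0 := by
    intro u h1 h2 h3
    refine hmin (j0 + 1) j1 (by omega) (by omega) hj1 (by omega) ?_
    refine ex_restrict hR (by omega) (by omega) le_rfl (S := univ) ?_ hcrs
    rintro ⟨p, hp⟩ -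
    rw [hD] at hp
    obtain ⟨v, ⟨hv1, hv2⟩, rfl⟩ := hp
    rcases Nat.eq_or_lt_of_le hv1 with h4 | h4
    · exact ⟨u, ⟨h1, h2⟩, by change W u = W v; rw [h3, h4]⟩
    · exact ⟨v, ⟨by omega, hv2⟩, rfl⟩
  have hb : ∀ u, j0 ≤ u → u ≤ j1 - 1 → W u ≠ W j1 := by
    intro u h1 h2 h3
    refine hmin j0 (j1 - 1) (by omega) (by omega) (by omega) (by omega) ?_
    refine ex_restrict hR le_rfl (by omega) (by omega) (S := univ) ?_ hcrs
    rintro ⟨p, hp⟩ -
    rw [hD] at hp
    obtain ⟨v, ⟨hv1, hv2⟩, rfl⟩ := hp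
    rcases Nat.eq_or_lt_of_le hv2 with h4 | h4
    · exact ⟨u, ⟨h1, h2⟩, by change W u = W v; rw [h3, h4]⟩
    · exact ⟨v, ⟨hv1, by omega⟩, rfl⟩
  have adja : G.Adj (W j0) (W (j0 + 1)) := by
    rcases hW' j0 le_rfl (by omega) with h1 | h1
    · exact absurd h1.symm (ha (j0 + 1) le_rfl (by omega))
    · exact h1
  have adjb : G.Adj (W j1) (W (j1 - 1)) := by
    have h2 := hW' (j1 - 1) (by omega) (by omega)
    rw [show j1 - 1 + 1 = j1 from by omega] at h2
    rcases h2 with h1 | h1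
    · exact absurd h1 (hb (j1 - 1) (by omega) le_rfl)
    · exact h1.symm
  obtain ⟨a, hae⟩ : ∃ a : D, a = ⟨W j0, hmem j0 le_rfl hj⟩ := ⟨_, rfl⟩
  obtain ⟨a', hae'⟩ : ∃ a' : D, a' = ⟨W (j0 + 1), hmem (j0 + 1) (by omega) (by omega)⟩ := ⟨_, rfl⟩
  obtain ⟨b, hbe⟩ : ∃ b : D, b = ⟨W j1, hmem j1 hj le_rfl⟩ := ⟨_, rfl⟩
  obtain ⟨b', hbe'⟩ : ∃ b' : D, b' = ⟨W (j1 - 1), hmem (j1 - 1) (by omega) (by omega)⟩ := ⟨_, rfl⟩
  -- the strand
  obtain ⟨cl, hcl⟩ : ∃ cl : ℕ → ℕ, ∀ r, cl r = max (j0 + 1) (min (j1 - 1) (j0 + r - 1)) :=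
    ⟨_, fun _ => rfl⟩
  have hcl1 : ∀ r, j0 + 1 ≤ cl r ∧ cl r ≤ j1 - 1 := fun r => by rw [hcl]; omega
  have hclm : ∀ r, W (cl r) ∈ D := fun r => by
    have := hcl1 r
    exact hmem _ (by omega) (by omega)
  have hEa : ∀ u v, j0 ≤ u → u ≤ j1 → j0 ≤ v → v ≤ j1 → u ≤ v + 1 → v ≤ u + 1 →
      Ea G (W u) (W v) := by
    intro u v h1 h2 h3 h4 h5 h6
    rcases Nat.lt_trichotomy u v with h7 | h7 | h7
    · have h8 : v = u + 1 := by omega
      rw [h8]
      exact hW' u h1 (by omega)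
    · rw [h7]
      exact Or.inl rfl
    · have h8 : u = v + 1 := by omega
      rw [h8]
      rcases hW' v h3 (by omega) with h9 | h9
      · exact Or.inl h9.symm
      · exact Or.inr h9.symm
  have hconn : ∀ x y : D, ReflTransGen (G.induce D).Adj x y := by
    have h1 : ∀ k (hk : j0 + k ≤ j1), ReflTransGen (G.induce D).Adj a
        ⟨W (j0 + k), hmem (j0 + k) (by omega) hk⟩ := by
      intro k
      induction k with
      | zero =>
        intro hk
        rw [hae]
        exact ReflTransGen.refl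
      | succ k ih =>
        intro hk
        refine (ih (by omega)).trans ?_
        rcases hW' (j0 + k) (by omega) (by omega) with h2 | h2
        · have h3 : (⟨W (j0 + k), hmem (j0 + k) (by omega) (by omega)⟩ : D) =
            ⟨W (j0 + (k + 1)), hmem (j0 + (k + 1)) (by omega) hk⟩ := Subtype.ext h2
          rw [h3]
        · exact ReflTransGen.single h2
    have h2 : ∀ x : D, ReflTransGen (G.induce D).Adj a x := by
      rintro ⟨x, hx⟩
      have hx' := hx
      rw [hD] at hx'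
      obtain ⟨v, ⟨hv1, hv2⟩, rfl⟩ := hx'
      obtain ⟨k, rfl⟩ : ∃ k, v = j0 + k := ⟨v - j0, by omega⟩
      exact h1 k hv2
    intro x y
    exact (rtg_symm (fun _ _ h => SimpleGraph.Adj.symm h) (h2 x)).trans (h2 y)
  have key := exists_type (G := G.induce D) (F := exF near D j0 R) (R := R) (a := a) (a' := a')
    (b := b) (b' := b') hconn (by omega)
    (by rw [hae, hae']; exact adja)
    (by
      rintro ⟨p, hp⟩ h1
      have hp' := hp
      rw [hD] at hp'
      obtain ⟨v, ⟨hv1, hv2⟩, rfl⟩ := hp'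
      rw [hae] at h1
      have h1 : G.Adj (W j0) (W v) := h1
      have hv3 : j0 + 1 ≤ v := by
        rcases Nat.eq_or_lt_of_le hv1 with h4 | h4
        · rw [← h4] at h1
          exact absurd h1 (G.loopless.irrefl _)
        · exact h4
      rw [hae']
      refine Subtype.ext ?_
      exact ex_leaf hG (i0 := j0 + 1) (i1 := j1) (fun u h2 h3 => hW' u (by omega) h3) ha
        le_rfl (by omega) hv3 hv2 adja h1)
    (by rw [hbe, hbe']; exact adjb)
    (by
      rintro ⟨p, hp⟩ h1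
      have hp' := hp
      rw [hD] at hp'
      obtain ⟨v, ⟨hv1, hv2⟩, rfl⟩ := hp'
      rw [hbe] at h1
      have h1 : G.Adj (W j1) (W v) := h1
      have hv3 : v ≤ j1 - 1 := by
        rcases Nat.eq_or_lt_of_le hv2 with h4 | h4
        · rw [h4] at h1
          exact absurd h1 (G.loopless.irrefl _)
        · omega
      rw [hbe']
      refine Subtype.ext ?_
      exact ex_leaf hG (i0 := j0) (i1 := j1 - 1) (fun u h2 h3 => hW' u (by omega) (by omega)) hb
        (by omega) le_rfl hv1 hv3 adjb h1)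
    (by
      rw [hae, hbe]
      intro h1
      exact ha j1 (by omega) le_rfl (congrArg Subtype.val h1).symm)
    (by
      rw [hae', hbe]
      intro h1
      exact hb (j0 + 1) (by omega) (by omega) (congrArg Subtype.val h1))
    (by
      rw [hbe', hae]
      intro h1
      exact ha (j1 - 1) (by omega) (by omega) (congrArg Subtype.val h1))
    (fun p => Or.inl rfl)
    (fun r => ⟨W (cl r), hclm r⟩)
    (by
      intro r hr hr'
      have h1 := hcl r
      have h2 := hcl1 r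
      refine ⟨?_, ?_, ?_⟩
      · rintro (h3 | h3 | h3)
        · omega
        · omega
        · exact h3 (hN' _ (by omega) (by omega) _ (hEa _ _ (by omega) (by omega) (by omega)
            (by omega) (by omega) (by omega)))
      · rw [hae]
        intro h3
        exact ha (cl r) h2.1 (by omega) (congrArg Subtype.val h3)
      · rw [hbe]
        intro h3
        exact hb (cl r) (by omega) h2.2 (congrArg Subtype.val h3))
    (by
      intro r hr hr'
      have h1 := hcl r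
      have h2 := hcl (r + 1)
      have h3 := hcl1 r
      have h4 := hcl1 (r + 1)
      rcases hEa (cl r) (cl (r + 1)) (by omega) (by omega) (by omega) (by omega) (by omega)
        (by omega) with h5 | h5
      · exact Or.inl (Subtype.ext h5.symm)
      · exact Or.inr h5)
    hcrs
    (by
      intro h
      refine hmin j0 (j1 - 1) (by omega) (by omega) (by omega) (by omega) ?_
      refine ex_restrict hR le_rfl (by omega) (by omega) (S := {p | p ≠ b}) ?_ h
      rintro ⟨p, hp⟩ hpb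
      rw [hD] at hp
      obtain ⟨v, ⟨hv1, hv2⟩, rfl⟩ := hp
      rcases Nat.eq_or_lt_of_le hv2 with h4 | h4
      · exact absurd (by rw [hbe]; exact Subtype.ext (by simp only [h4])) hpb
      · exact ⟨v, ⟨hv1, by omega⟩, rfl⟩)
    (by
      intro h
      refine hmin (j0 + 1) j1 (by omega) (by omega) hj1 (by omega) ?_
      refine ex_restrict hR (by omega) (by omega) le_rfl (S := {p | p ≠ a}) ?_ h
      rintro ⟨p, hp⟩ hpa
      rw [hD] at hp
      obtain ⟨v, ⟨hv1, hv2⟩, rfl⟩ := hp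
      rcases Nat.eq_or_lt_of_le hv1 with h4 | h4
      · exact absurd (by rw [hae]; exact Subtype.ext (by simp only [← h4])) hpa
      · exact ⟨v, ⟨by omega, hv2⟩, rfl⟩)
  obtain ⟨x1, p1, p2, x2, s1, s2, hrt, hok, e1, e2, e3⟩ := key
  -- translation
  have hsub : ∀ p : D, (p : V) ∈ W '' Icc u0 u1 := by
    rintro ⟨p, hp⟩
    rw [hD] at hp
    obtain ⟨v, ⟨hv1, hv2⟩, rfl⟩ := hp
    exact ⟨v, ⟨by omega, by omega⟩, rfl⟩
  have hpos : ∀ c : D × D × ℕ, Gok (exF near D j0 R) R c → 0 < c.2.2 ∧ c.2.2 < R := by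
    rintro ⟨x, p, r⟩ ⟨-, -, h3⟩
    simp only at h3 ⊢
    constructor
    · rcases Nat.eq_zero_or_pos r with h4 | h4
      · exact absurd (Or.inl h4) h3
      · exact h4
    · rcases Nat.lt_or_ge r R with h4 | h4
      · exact h4
      · exact absurd (Or.inr (Or.inl h4)) h3
  have hstate : ∀ c : D × D × ℕ, Gok (exF near D j0 R) R c →
      GState near (W '' Icc u0 u1) u0 u1 ((c.1 : V), (c.2.1 : V), j0 + c.2.2 - 1) := by
    rintro ⟨x, p, r⟩ h
    have h4 := hpos _ h
    obtain ⟨h1, h2, h3⟩ := h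
    simp only at h1 h2 h3 h4 ⊢
    refine ⟨hsub x, hsub p, by simp only; omega, by simp only; omega, ?_, ?_⟩
    · rcases h2 with h2 | h2 | h2
      · omega
      · omega
      · exact h2
    · by_contra h5
      exact h3 (Or.inr (Or.inr h5))
  refine ⟨x1, p1, p2, x2, j0 + s1 - 1, j0 + s2 - 1, hstate _ hok, ?_, ?_, ?_, ?_⟩
  · refine hrt.lift (fun c : D × D × ℕ => ((c.1 : V), (c.2.1 : V), j0 + c.2.2 - 1)) ?_
    rintro ⟨x, p, r⟩ ⟨x', p', r'⟩ ⟨h1, h2, h3⟩
    have k1 := hpos _ h1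
    have k2 := hpos _ h2
    refine ⟨hstate _ h1, hstate _ h2, ?_⟩
    simp only at h3 k1 k2 ⊢
    rcases h3 with ⟨h3, h4, h5⟩ | ⟨h3, h4, h5, h6⟩
    · left
      exact ⟨h3, by rw [h4], by rw [h5]⟩
    · right
      refine ⟨by rw [h3], ?_, by constructor <;> omega⟩
      rcases h4 with h4 | h4
      · exact Or.inl (by rw [h4])
      · exact Or.inr h4
  · rcases e1 with h | h
    · exact Or.inl (by rw [h])
    · exact Or.inr h
  · rcases e2 with h | h
    · exact Or.inl (by rw [h])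
    · exact Or.inr h
  · rcases e3 with h | h | h
    · exact Or.inl (by rw [h])
    · exact Or.inr (Or.inl (by rw [h]))
    · right; right
      rintro ⟨h1, h2⟩
      apply h
      have hcol : ∀ x p : D, (∀ u ∈ Icc u0 u1, (near x u ↔ near p u)) →
          ∀ r, exF near D j0 R x r ↔ exF near D j0 R p r := by
        intro x p h3 r
        unfold exF
        by_cases h4 : r = 0
        · simp [h4]
        · by_cases h5 : R ≤ r
          · simp [h5]
          · rw [h3 (j0 + r - 1) ⟨by omega, by omega⟩]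
      exact ⟨hcol _ _ h1, hcol _ _ h2⟩

end Pool.Agent.Lib.MP_40f35d_gt.Sw
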