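import Mathlib

/-!
The greedy cut of an interval of natural numbers.
-/

set_option autoImplicit false

namespace Pool.Agent.Lib.MP_40f35d_gt.Sw

namespace Gr

/-- The greedy cut of an interval: `U` for uncrossed, `Cr` for crossed. -/
theorem greedy_abs (n : ℕ) (U Cr : ℕ → ℕ → Prop) (h0 : ∀ c ≤ n, U c c)
    (h1 : ∀ c < n, U c (c + 1)) (h2 : ∀ c j, c < j → j ≤ n → ¬ Cr c j → U c j) :
    ∀ d c, c + d = n → ∃ (K : ℕ) (I J f : ℕ → ℕ),
      (∀ r < K, c ≤ I r ∧ I r < J r ∧ J r ≤ n ∧ Cr (I r) (J r)) ∧
      (∀ r < K, ∀ r' < K, r < r' → J r < I r') ∧ f 0 = c ∧ f (3 * K + 1) = n ∧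
      ∀ r < 3 * K + 1, f r ≤ f (r + 1) ∧ f (r + 1) ≤ n ∧ U (f r) (f (r + 1)) := by
  classical
  intro d
  induction d using Nat.strong_induction_on with
  | _ d ih =>
    intro c hc
    by_cases h : ∃ j, c < j ∧ j ≤ n ∧ Cr c j
    swap
    · have hU : U c n := by
        rcases Nat.eq_or_lt_of_le (show c ≤ n by omega) with h3 | h3
        · rw [h3]
          exact h0 n le_rfl
        · exact h2 c n h3 le_rfl (fun h4 => h ⟨n, h3, le_rfl, h4⟩)
      refine ⟨0, fun _ => 0, fun _ => 0, fun r => if r = 0 then c else n, ?_, ?_, ?_, ?_, ?_⟩
      · intro r hr
        omega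
      · intro r hr
        omega
      · simp
      · simp
      · intro r hr
        have hr0 : r = 0 := by omega
        subst hr0
        simp only [if_true]
        rw [if_neg (by omega)]
        exact ⟨by omega, le_rfl, hU⟩
    · set j := Nat.find h with hj
      obtain ⟨hj1, hj2, hj3⟩ : c < j ∧ j ≤ n ∧ Cr c j := Nat.find_spec h
      have hmin : ∀ j', c < j' → j' < j → ¬ Cr c j' := by
        intro j' h3 h4 h5
        exact Nat.find_min h h4 ⟨h3, by omega, h5⟩
      have hU1 : U c (j - 1) := by
        rcases Nat.eq_or_lt_of_le (show c ≤ j - 1 by omega) with h3 | h3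
        · rw [← h3]
          exact h0 c (by omega)
        · exact h2 c (j - 1) h3 (by omega) (hmin (j - 1) h3 (by omega))
      have hU2 : U (j - 1) j := by
        have h3 := h1 (j - 1) (by omega)
        rwa [show j - 1 + 1 = j by omega] at h3
      rcases Nat.eq_or_lt_of_le hj2 with h3 | h3
      · refine ⟨1, fun _ => c, fun _ => j, fun r => if r = 0 then c else if r = 1 then j - 1
          else n, ?_, ?_, ?_, ?_, ?_⟩
        · intro r hr
          exact ⟨le_rfl, hj1, hj2, hj3⟩
        · intro r hr r' hr'
          omega
        · simp
        · simp
        · intro r hr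
          rcases Nat.lt_or_ge r 2 with h4 | h4
          · rcases Nat.eq_zero_or_pos r with h5 | h5
            · subst h5
              simp only [if_true]
              rw [if_neg (by omega)]
              exact ⟨by omega, by omega, hU1⟩
            · have h6 : r = 1 := by omega
              subst h6
              simp only [if_true]
              rw [if_neg (by omega), if_neg (by omega), if_neg (by omega)]
              refine ⟨by omega, le_rfl, ?_⟩
              rw [← h3]
              exact hU2
          · simp only
            rw [if_neg (by omega), if_neg (by omega), if_neg (by omega), if_neg (by omega)]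
            exact ⟨le_rfl, le_rfl, h0 n le_rfl⟩
      · obtain ⟨K, I, J, f, g1, g2, g3, g4, g5⟩ := ih (n - (j + 1)) (by omega) (j + 1) (by omega)
        refine ⟨K + 1, fun r => if r = 0 then c else I (r - 1), fun r => if r = 0 then j else
          J (r - 1), fun r => if r = 0 then c else if r = 1 then j - 1 else if r = 2 then j else
          f (r - 3), ?_, ?_, ?_, ?_, ?_⟩
        · intro r hr
          rcases Nat.eq_zero_or_pos r with h5 | h5
          · subst h5
            simp only [if_true]
            exact ⟨le_rfl, hj1, hj2, hj3⟩
          · simp only
            rw [if_neg (by omega), if_neg (by omega)]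
            obtain ⟨e1, e2, e3, e4⟩ := g1 (r - 1) (by omega)
            exact ⟨by omega, e2, e3, e4⟩
        · intro r hr r' hr' hrr
          simp only
          rw [if_neg (show ¬ r' = 0 by omega)]
          rcases Nat.eq_zero_or_pos r with h5 | h5
          · rw [if_pos h5]
            obtain ⟨e1, e2, e3, e4⟩ := g1 (r' - 1) (by omega)
            omega
          · rw [if_neg (by omega)]
            exact g2 (r - 1) (by omega) (r' - 1) (by omega) (by omega)
        · simp
        · simp only
          rw [if_neg (by omega), if_neg (by omega), if_neg (by omega),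
            show 3 * (K + 1) + 1 - 3 = 3 * K + 1 by omega]
          exact g4
        · intro r hr
          rcases Nat.lt_or_ge r 3 with h4 | h4
          · interval_cases r
            · simp only [if_true]
              rw [if_neg (by omega)]
              exact ⟨by omega, by omega, hU1⟩
            · simp only [if_true]
              rw [if_neg (by omega), if_neg (by omega), if_neg (by omega)]
              exact ⟨by omega, by omega, hU2⟩
            · simp only [if_true]
              rw [if_neg (by omega), if_neg (by omega), if_neg (by omega), if_neg (by omega),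
                if_neg (by omega)]
              rw [show 2 + 1 - 3 = 0 by omega, g3]
              exact ⟨by omega, by omega, h1 j h3⟩
          · simp only
            rw [if_neg (by omega), if_neg (by omega), if_neg (by omega), if_neg (by omega),
              if_neg (by omega), if_neg (by omega), show r + 1 - 3 = r - 3 + 1 by omega]
            exact g5 (r - 3) (by omega)

end Gr

end Pool.Agent.Lib.MP_40f35d_gt.Sw
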