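import Pool.Agent.Lib.MP_40f35d_gt.Sw.Hit
import Pool.Agent.Lib.MP_40f35d_gt.Sw.GrAbs

/-!
The greedy cut: an arc of a tree, covered by a walk, is cut into few uncrossed pieces, or the walk
has many pairwise disjoint crossed windows.
-/

set_option autoImplicit false

open Set Topology

namespace Pool.Agent.Lib.MP_40f35d_gt.Sw

open Pool.Agent.Lib.MP_40f35d_gt.H

namespace Gr

variable {V : Type} {G : SimpleGraph V}

/-- The greedy cut for two times in order, in terms of the arc. -/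
theorem greedy_le (hG : G.IsTree) (near : V → ℕ → Prop) (W : ℕ → V) (L : ℕ)
    (hW : ∀ u < L, Ea G (W u) (W (u + 1)))
    (hN : ∀ u ≤ L, ∀ p, Ea G p (W u) → near p u) (N : ℕ) (i j : ℕ) (hij : i ≤ j) (hj : j ≤ L) :
    (Pieces G near W L (4 * N + 1) (W i) (W j) ∧ Pieces G near W L (4 * N + 1) (W j) (W i)) ∨
    ∃ (u0 u1 : Fin N → ℕ), (∀ r, u0 r ≤ u1 r ∧ u1 r ≤ L ∧
      Crossed G near (W '' Icc (u0 r) (u1 r)) (u0 r) (u1 r)) ∧
      ∀ r r', r ≠ r' → Disjoint (W '' Icc (u0 r) (u1 r)) (W '' Icc (u0 r') (u1 r')) := by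
  classical
  obtain ⟨n, q, pr, A⟩ := exists_arc hG (W i) (W j)
  obtain ⟨H, hH1, hH2, hH3⟩ := exists_hit A hW hij hj rfl rfl
  have hmono : ∀ k k', k < k' → k' ≤ n → H k < H k' := by
    intro k k' hk hk'
    induction k' with
    | zero => omega
    | succ k' ih =>
      have h1 := (hH3 k' (by omega)).1
      rcases Nat.eq_or_lt_of_le (show k ≤ k' by omega) with h2 | h2
      · rw [h2]
        exact h1
      · exact (ih h2 (by omega)).trans h1
  have hpr : ∀ k ≤ n, ∀ u, i ≤ u → u ≤ H k → pr (W u) ≤ k := by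
    intro k hk u hu1 hu2
    rcases Nat.eq_or_lt_of_le hu2 with h1 | h1
    · rw [h1, (hH1 k hk).2.2, A.pq k hk]
    · exact (hH2 k hk u hu1 h1).le
  have hlast : ∀ c j', c < j' → j' ≤ n → ∃ l, i ≤ l ∧ l < H j' ∧ W l = q c ∧
      ∀ u, l ≤ u → u ≤ H j' → c ≤ pr (W u) := by
    intro c j' h1 h2
    obtain ⟨g1, g2, g3⟩ := hH1 c (by omega)
    obtain ⟨g4, g5, g6⟩ := hH1 j' h2
    obtain ⟨l, e1, e2, e3, e4⟩ := exists_last A hW (ta := H c) c (H j') (hmono c j' h1 h2).le
      (by omega) (by rw [g3, A.pq c (by omega)]) (by rw [g6, A.pq j' h2]; exact h1)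
    exact ⟨l, by omega, e2, e3, e4⟩
  have hchoice : ∃ l : ℕ → ℕ → ℕ, ∀ c j', c < j' → j' ≤ n → i ≤ l c j' ∧ l c j' < H j' ∧
      W (l c j') = q c ∧ ∀ u, l c j' ≤ u → u ≤ H j' → c ≤ pr (W u) := by
    choose! l hl using hlast
    exact ⟨l, hl⟩
  obtain ⟨l, hl⟩ := hchoice
  have hnc : ∀ u, u ≤ L → ∀ D : Set V, (∀ x ∈ D, Ea G x (W u)) → ∀ v, ¬ Crossed G near D u v := by
    rintro u hu D hD v ⟨x, hx, y, hy, h1, h2, h3⟩
    exact h1 (hN u hu x (hD x hx))
  have hU0 : ∀ c ≤ n, Unc G near W L (q c) (q c) := by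
    intro c hc
    obtain ⟨g1, g2, g3⟩ := hH1 c hc
    refine ⟨H c, by omega, H c, by omega, g3, g3, ?_⟩
    rw [min_self, max_self]
    refine hnc (H c) (by omega) _ ?_ _
    rintro x ⟨u, hu, rfl⟩
    have h1 : u = H c := le_antisymm hu.2 hu.1
    rw [h1]
    exact Or.inl rfl
  have hU1 : ∀ c < n, Unc G near W L (q c) (q (c + 1)) := by
    intro c hc
    obtain ⟨g1, g2, g3⟩ := hH1 (c + 1) hc
    obtain ⟨g4, g5⟩ := hH3 c hc
    refine ⟨H (c + 1) - 1, by omega, H (c + 1), by omega, g5, g3, ?_⟩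
    rw [min_eq_left (by omega), max_eq_right (by omega)]
    refine hnc (H (c + 1) - 1) (by omega) _ ?_ _
    rintro x ⟨u, hu, rfl⟩
    have h1 : u = H (c + 1) - 1 ∨ u = H (c + 1) - 1 + 1 := by
      have h2 := hu.1
      have h3 := hu.2
      omega
    rcases h1 with h1 | h1
    · rw [h1]
      exact Or.inl rfl
    · rw [h1]
      rcases hW (H (c + 1) - 1) (by omega) with h2 | h2
      · exact Or.inl h2.symm
      · exact Or.inr h2.symm
  obtain ⟨K, I, J, f, g1, g2, g3, g4, g5⟩ := greedy_abs n (fun c d => Unc G near W L (q c) (q d))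
    (fun c d => Crossed G near (W '' Icc (l c d) (H d)) (l c d) (H d)) hU0 hU1 (by
      intro c d h1 h2 h3
      obtain ⟨e1, e2, e3, e4⟩ := hl c d h1 h2
      obtain ⟨e5, e6, e7⟩ := hH1 d h2
      refine ⟨l c d, by omega, H d, by omega, e3, e7, ?_⟩
      rw [min_eq_left (by omega), max_eq_right (by omega)]
      exact h3) n 0 (by omega)
  rcases Nat.lt_or_ge K N with hK | hK
  · left
    set f' : ℕ → ℕ := fun r => f (min r (3 * K + 1)) with hf'
    have hf0 : f' 0 = 0 := by
      simp only [hf', Nat.zero_min]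
      exact g3
    have hfn : f' (4 * N + 1) = n := by
      simp only [hf']
      rw [min_eq_right (by omega)]
      exact g4
    have hfs : ∀ r < 4 * N + 1, f' r ≤ f' (r + 1) ∧ f' (r + 1) ≤ n ∧
        Unc G near W L (q (f' r)) (q (f' (r + 1))) := by
      intro r hr
      rcases Nat.lt_or_ge r (3 * K + 1) with h1 | h1
      · simp only [hf']
        rw [min_eq_left (by omega), min_eq_left (by omega)]
        exact g5 r h1
      · simp only [hf']
        rw [min_eq_right (by omega), min_eq_right (by omega), g4]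
        exact ⟨le_rfl, le_rfl, hU0 n le_rfl⟩
    have hfm : ∀ d r, r + d ≤ 4 * N + 1 → f' r ≤ f' (r + d) := by
      intro d
      induction d with
      | zero => intro r _; exact le_rfl
      | succ d ih =>
        intro r hr
        exact (ih r (by omega)).trans (hfs (r + d) (by omega)).1
    constructor
    · have h1 := pieces_of (G := G) (near := near) (W := W) (L := L) (4 * N + 1)
        (fun r => q (f' r)) (fun r hr => ⟨by
          refine A.btw (hfs r hr).1 ?_ (by rw [hfn])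
          have h2 := hfm (4 * N + 1 - (r + 1)) (r + 1) (by omega)
          rwa [show r + 1 + (4 * N + 1 - (r + 1)) = 4 * N + 1 by omega] at h2, (hfs r hr).2.2⟩)
      simp only [hf0, hfn, A.q0, A.qn] at h1
      exact h1
    · have h1 := pieces_of (G := G) (near := near) (W := W) (L := L) (4 * N + 1)
        (fun r => q (f' (4 * N + 1 - r))) (fun r hr => by
          have h2 := hfs (4 * N + 1 - (r + 1)) (by omega)
          have h3 := hfm (4 * N + 1 - r) 0 (by omega)
          rw [show 4 * N + 1 - (r + 1) + 1 = 4 * N + 1 - r by omega] at h2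
          have h4 := hfm (4 * N + 1 - (4 * N + 1 - r)) (4 * N + 1 - r) (by omega)
          rw [show 4 * N + 1 - r + (4 * N + 1 - (4 * N + 1 - r)) = 4 * N + 1 by omega, hfn] at h4
          refine ⟨?_, unc_symm h2.2.2⟩
          have h5 := A.btw (i := f' (4 * N + 1 - (4 * N + 1))) (j := f' (4 * N + 1 - (r + 1)))
            (k := f' (4 * N + 1 - r)) (by rw [Nat.sub_self, hf0]; exact Nat.zero_le _) h2.1 h4
          exact btw_symm h5)
      simp only [Nat.sub_zero, Nat.sub_self, hf0, hfn, A.q0, A.qn] at h1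
      exact h1
  · right
    refine ⟨fun r => l (I r) (J r), fun r => H (J r), ?_, ?_⟩
    · intro r
      obtain ⟨e1, e2, e3, e4⟩ := g1 r (lt_of_lt_of_le r.2 hK)
      obtain ⟨e5, e6, e7, e8⟩ := hl (I r) (J r) e2 e3
      obtain ⟨e9, e10, e11⟩ := hH1 (J r) e3
      exact ⟨e6.le, e10.trans hj, e4⟩
    · have hdis : ∀ r r' : Fin N, r < r' →
          Disjoint (W '' Icc (l (I r) (J r)) (H (J r))) (W '' Icc (l (I r') (J r')) (H (J r'))) := by
        intro r r' hrr
        obtain ⟨e1, e2, e3, e4⟩ := g1 r (lt_of_lt_of_le r.2 hK)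
        obtain ⟨e5, e6, e7, e8⟩ := g1 r' (lt_of_lt_of_le r'.2 hK)
        obtain ⟨k1, k2, k3, k4⟩ := hl (I r) (J r) e2 e3
        obtain ⟨m1, m2, m3, m4⟩ := hl (I r') (J r') e6 e7
        have h1 := g2 r (lt_of_lt_of_le r.2 hK) r' (lt_of_lt_of_le r'.2 hK) hrr
        rw [Set.disjoint_left]
        rintro x ⟨u, hu, rfl⟩ ⟨v, hv, hvu⟩
        have h2 := hpr (J r) e3 u (by have := hu.1; omega) hu.2
        have h3 := m4 v hv.1 hv.2
        rw [hvu] at h3
        omega
      intro r r' hne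
      rcases lt_or_gt_of_ne hne with h1 | h1
      · exact hdis r r' h1
      · exact (hdis r' r h1).symm

end Gr

/-- Row C4: the greedy cut. -/
theorem greedy {V : Type} (G : SimpleGraph V) (hG : G.IsTree) (near : V → ℕ → Prop) (W : ℕ → V)
    (L : ℕ) (hW : ∀ u < L, Ea G (W u) (W (u + 1)))
    (hN : ∀ u ≤ L, ∀ p, Ea G p (W u) → near p u) (N : ℕ) (i j : ℕ) (hi : i ≤ L) (hj : j ≤ L) :
    Pieces G near W L (4 * N + 1) (W i) (W j) ∨
    ∃ (u0 u1 : Fin N → ℕ), (∀ r, u0 r ≤ u1 r ∧ u1 r ≤ L ∧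
      Crossed G near (W '' Icc (u0 r) (u1 r)) (u0 r) (u1 r)) ∧
      ∀ r r', r ≠ r' → Disjoint (W '' Icc (u0 r) (u1 r)) (W '' Icc (u0 r') (u1 r')) := by
  rcases le_total i j with hij | hij
  · rcases Gr.greedy_le hG near W L hW hN N i j hij hj with h | h
    · exact Or.inl h.1
    · exact Or.inr h
  · rcases Gr.greedy_le hG near W L hW hN N j i hij hi with h | h
    · exact Or.inl h.2
    · exact Or.inr h

end Pool.Agent.Lib.MP_40f35d_gt.Sw
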