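import Pool.Agent.Lib.MP_40f35d_gt.Sw.Defs2
import Pool.Agent.Lib.MP_40f35d_gt.Gs.Hex

/-!
Row C1: the Hex theorem on a rectangle.
-/

set_option autoImplicit false

namespace Pool.Agent.Lib.MP_40f35d_gt.Sw

open Pool.Agent.Lib.MP_40f35d_gt.H

/-- Row C1: Hex on a rectangle. -/
theorem hex (k n : ℕ) (near : ℕ → ℕ → Prop) :
    (∃ (R : ℕ) (a u : ℕ → ℕ), a 0 = 0 ∧ a R = k ∧
      (∀ r < R, Nr (a r) (a (r + 1)) ∧ Nr (u r) (u (r + 1))) ∧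
      ∀ r ≤ R, a r ≤ k ∧ u r ≤ n ∧ near (a r) (u r)) ∨
    (∃ (R : ℕ) (a u : ℕ → ℕ), u 0 = 0 ∧ u R = n ∧
      (∀ r < R, (a r = a (r + 1) ∧ (u (r + 1) = u r + 1 ∨ u r = u (r + 1) + 1)) ∨
        (u r = u (r + 1) ∧ (a (r + 1) = a r + 1 ∨ a r = a (r + 1) + 1))) ∧
      ∀ r ≤ R, a r ≤ k ∧ u r ≤ n ∧ ¬ near (a r) (u r)) := by
  by_cases h : ∃ i j, i ≤ k ∧ j ≤ k ∧ ¬ near i 0 ∧ ¬ near j n ∧
      Relation.ReflTransGen (Gs.FSt near k 0 n) (i, 0) (j, n)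
  · right
    obtain ⟨i, j, h1, h2, h3, h4, h5⟩ := h
    obtain ⟨R, f, h6, h7, h8⟩ := Gs.exists_seq h5
    refine ⟨R, fun r => (f r).1, fun r => (f r).2, by simp [h6], by simp [h7],
      fun r hr => (h8 r hr).2.2, fun r hr => ?_⟩
    rcases Nat.lt_or_ge r R with h9 | h9
    · have h10 := (h8 r h9).1
      exact ⟨h10.1, h10.2.2.1, h10.2.2.2⟩
    · have h10 : r = R := by omega
      beta_reduce
      rw [h10, h7]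
      exact ⟨h2, le_rfl, h4⟩
  · left
    obtain ⟨R, a, u, h1, h2, h3, h4⟩ := Gs.hex (Nat.zero_le n) h
    refine ⟨R, a, u, h1, h2, fun r hr => ?_, fun r hr => ?_⟩
    · obtain ⟨h5, h6, h7, h8⟩ := h4 r hr
      exact ⟨⟨h5, h6⟩, ⟨h7, h8⟩⟩
    · obtain ⟨h5, _, h6, h7⟩ := h3 r hr
      exact ⟨h5, h6, h7⟩

end Pool.Agent.Lib.MP_40f35d_gt.Sw
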