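import Pool.Agent.Lib.MP_40f35d_gt.Sw.Arc

/-!
The first and the last visits of a walk at the vertices of an arc.
-/

set_option autoImplicit false

open Set Topology

namespace Pool.Agent.Lib.MP_40f35d_gt.Sw

open Pool.Agent.Lib.MP_40f35d_gt.H

namespace Gr

variable {V : Type} {G : SimpleGraph V}

/-- The first time, from `ta` on, at which the projection is at least `k`. -/
theorem exists_hit {a b : V} {n : ℕ} {q : ℕ → V} {pr : V → ℕ} (A : Arc G a b n q pr)
    {W : ℕ → V} {L : ℕ} (hW : ∀ u < L, Ea G (W u) (W (u + 1))) {ta tb : ℕ} (hab : ta ≤ tb)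
    (hbL : tb ≤ L) (ha : W ta = a) (hb : W tb = b) : ∃ H : ℕ → ℕ,
      (∀ k ≤ n, ta ≤ H k ∧ H k ≤ tb ∧ W (H k) = q k) ∧
      (∀ k ≤ n, ∀ u, ta ≤ u → u < H k → pr (W u) < k) ∧
      (∀ k < n, H k < H (k + 1) ∧ W (H (k + 1) - 1) = q k) := by
  classical
  have hpa : pr (W ta) = 0 := by
    rw [ha, ← A.q0]
    exact A.pq 0 (Nat.zero_le _)
  have hpb : pr (W tb) = n := by
    rw [hb, ← A.qn]
    exact A.pq n le_rfl
  have hex : ∀ k, k ≤ n → ∃ u, ta ≤ u ∧ k ≤ pr (W u) := fun k hk => ⟨tb, hab, by omega⟩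
  set H : ℕ → ℕ := fun k => if h : ∃ u, ta ≤ u ∧ k ≤ pr (W u) then Nat.find h else 0 with hH
  have hHe : ∀ k (hk : k ≤ n), H k = Nat.find (hex k hk) := fun k hk => dif_pos (hex k hk)
  have h1 : ∀ k ≤ n, ta ≤ H k ∧ k ≤ pr (W (H k)) := by
    intro k hk
    rw [hHe k hk]
    exact Nat.find_spec (hex k hk)
  have h2 : ∀ k ≤ n, H k ≤ tb := by
    intro k hk
    rw [hHe k hk]
    exact Nat.find_min' (hex k hk) ⟨hab, by omega⟩
  have h3 : ∀ k ≤ n, ∀ u, ta ≤ u → u < H k → pr (W u) < k := by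
    intro k hk u hu1 hu2
    rw [hHe k hk] at hu2
    have h4 := Nat.find_min (hex k hk) hu2
    by_contra h5
    exact h4 ⟨hu1, by omega⟩
  have h4 : ∀ k < n, W (H (k + 1)) = q (k + 1) ∧ W (H (k + 1) - 1) = q k := by
    intro k hk
    have h5 := h1 (k + 1) hk
    have h6 := h2 (k + 1) hk
    have h7 : H (k + 1) ≠ ta := by
      intro h8
      rw [h8] at h5
      omega
    have h8 := h3 (k + 1) hk (H (k + 1) - 1) (by omega) (by omega)
    have h9 := hW (H (k + 1) - 1) (by omega)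
    rw [show H (k + 1) - 1 + 1 = H (k + 1) by omega] at h9
    rcases h9 with h9 | h9
    · rw [h9] at h8
      omega
    · rcases A.stp _ _ h9 with h10 | ⟨i, hi, ⟨h10, h11⟩ | ⟨h10, h11⟩⟩
      · omega
      · have h12 := A.pq i (by omega)
        have h13 := A.pq (i + 1) (by omega)
        rw [← h10] at h12
        rw [← h11] at h13
        have h14 : i = k := by omega
        rw [← h14]
        exact ⟨by rw [h14]; rw [h14] at h11; exact h11, by rw [h14]; rw [h14] at h10; exact h10⟩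
      · have h12 := A.pq i (by omega)
        have h13 := A.pq (i + 1) (by omega)
        rw [← h11] at h12
        rw [← h10] at h13
        omega
  have h5 : ∀ k ≤ n, W (H k) = q k := by
    intro k hk
    rcases k with _ | k
    · have h6 : H 0 = ta := by
        rw [hHe 0 hk]
        have h7 := Nat.find_min' (hex 0 hk) ⟨le_rfl, Nat.zero_le _⟩
        have h8 := (Nat.find_spec (hex 0 hk)).1
        omega
      rw [h6, ha, A.q0]
    · exact (h4 k (by omega)).1
  refine ⟨H, fun k hk => ⟨(h1 k hk).1, h2 k hk, h5 k hk⟩, h3, fun k hk => ⟨?_, (h4 k hk).2⟩⟩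
  by_contra h6
  have h7 : pr (W (H (k + 1))) = k + 1 := by
    rw [h5 (k + 1) hk, A.pq (k + 1) hk]
  have h8 : pr (W (H k)) = k := by
    rw [h5 k (by omega), A.pq k (by omega)]
  rcases Nat.lt_or_eq_of_le (not_lt.1 h6) with h9 | h9
  · have h10 := h3 k (by omega) (H (k + 1)) (h1 (k + 1) hk).1 h9
    omega
  · rw [h9] at h7
    omega

theorem exists_last {a b : V} {n : ℕ} {q : ℕ → V} {pr : V → ℕ} (A : Arc G a b n q pr)
    {W : ℕ → V} {L : ℕ} (hW : ∀ u < L, Ea G (W u) (W (u + 1))) {ta : ℕ} (c : ℕ) (t : ℕ)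
    (hat : ta ≤ t) (htL : t ≤ L) (ha : pr (W ta) ≤ c) (ht : c < pr (W t)) :
    ∃ l, ta ≤ l ∧ l < t ∧ W l = q c ∧ ∀ u, l ≤ u → u ≤ t → c ≤ pr (W u) := by
  classical
  set P : ℕ → Prop := fun u => ta ≤ u ∧ pr (W u) ≤ c with hP
  set l := Nat.findGreatest P t with hl
  have h1 : P l := Nat.findGreatest_spec (P := P) hat ⟨le_rfl, ha⟩
  have h2 : l ≤ t := Nat.findGreatest_le t
  have h3 : ∀ u, l < u → u ≤ t → c < pr (W u) := by
    intro u hu1 hu2
    have h4 := Nat.findGreatest_is_greatest (P := P) hu1 hu2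
    by_contra h5
    exact h4 ⟨le_trans h1.1 hu1.le, not_lt.1 h5⟩
  have h4 : l ≠ t := by
    intro h5
    rw [h5] at h1
    exact absurd h1.2 (not_le.2 ht)
  have h5 := h3 (l + 1) (by omega) (by omega)
  have h6 : pr (W l) = c ∧ W l = q c := by
    rcases hW l (by omega) with h9 | h9
    · rw [← h9] at h5
      exact absurd h1.2 (not_le.2 h5)
    · rcases A.stp _ _ h9 with h10 | ⟨i, hi, ⟨h10, h11⟩ | ⟨h10, h11⟩⟩
      · have h12 := h1.2
        omega
      · have h12 := A.pq i (by omega)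
        have h13 := A.pq (i + 1) (by omega)
        have h14 := h1.2
        rw [← h10] at h12
        rw [← h11] at h13
        have h15 : i = c := by omega
        exact ⟨by omega, by rw [← h15]; exact h10⟩
      · have h12 := A.pq i (by omega)
        have h13 := A.pq (i + 1) (by omega)
        have h14 := h1.2
        rw [← h11] at h12
        rw [← h10] at h13
        omega
  refine ⟨l, h1.1, by omega, h6.2, fun u hu1 hu2 => ?_⟩
  rcases Nat.lt_or_eq_of_le hu1 with h7 | h7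
  · exact (h3 u h7 hu2).le
  · rw [← h7, h6.1]

end Gr

end Pool.Agent.Lib.MP_40f35d_gt.Sw
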