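import Pool.Agent.Lib.MP_40f35d_gt.Sw.Defs2
import Pool.Agent.Lib.MP_40f35d_gt.Pl.Eg
import Pool.Agent.Lib.MP_40f35d_gt.Pl.Lvs

/-!
# The tile trees of a planar tree-like continuum
-/

set_option autoImplicit false

open Set Topology

namespace Pool.Agent.Lib.MP_40f35d_gt.Sw

/-- (P) The tile trees of a planar tree-like continuum exist. -/
theorem levels (X : Set (EuclideanSpace ℝ (Fin 2))) (hX : IsCompact X) (hXc : IsConnected X)
    (hT : TreeLike X) : Nonempty (Levels X) := by
  obtain ⟨o, a, N, h⟩ := Pl.exists_grids hX hXc hT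
  exact Pl.levels_of_grids hXc.nonempty h

end Pool.Agent.Lib.MP_40f35d_gt.Sw
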