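import Pool.Agent.Lib.MP_40f35d_gt.Sw.Levels

/-!
# The theorem `levels` is in the imported file
-/
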