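import Pool.Agent.Lib.MP_40f35d_gt.Sw.Defs

/-!
# MP_40f35d_gt, project Sw: walks from chain covers (row V)
-/

set_option autoImplicit false

open Set Topology

namespace Pool.Agent.Lib.MP_40f35d_gt.Sw

open Pool.Agent.Lib.MP_40f35d_gt.H

/-- Two points of a connected space are joined by small steps. -/
private theorem wk_chain {Y : Type} [MetricSpace Y] [ConnectedSpace Y] {ε : ℝ} (hε : 0 < ε)
    (a b : Y) : Relation.ReflTransGen (fun x y : Y => dist x y < ε) a b := by
  have h1 : IsClopen {b : Y | Relation.ReflTransGen (fun x y : Y => dist x y < ε) a b} := by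
    constructor
    · rw [← isOpen_compl_iff, Metric.isOpen_iff]
      intro x hx
      refine ⟨ε, hε, fun y hy hya => hx ?_⟩
      exact Relation.ReflTransGen.tail hya hy
    · rw [Metric.isOpen_iff]
      intro x hx
      refine ⟨ε, hε, fun y hy => ?_⟩
      refine Relation.ReflTransGen.tail hx ?_
      rw [dist_comm]
      exact hy
  have h2 := h1.eq_univ ⟨a, Relation.ReflTransGen.refl⟩
  have h3 : b ∈ {b : Y | Relation.ReflTransGen (fun x y : Y => dist x y < ε) a b} := by
    rw [h2]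
    exact mem_univ b
  exact h3

/-- A chain of steps as a sequence. -/
private theorem wk_seq {α : Type} {r : α → α → Prop} {a b : α}
    (h : Relation.ReflTransGen r a b) :
    ∃ (K : ℕ) (c : ℕ → α), c 0 = a ∧ c K = b ∧ ∀ i < K, r (c i) (c (i + 1)) := by
  induction h with
  | refl => exact ⟨0, fun _ => a, rfl, rfl, fun i hi => absurd hi (Nat.not_lt_zero i)⟩
  | @tail b' c' _ hr ih =>
    obtain ⟨K, c, h0, hK, hs⟩ := ih
    refine ⟨K + 1, fun i => if i ≤ K then c i else c', ?_, ?_, fun i hi => ?_⟩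
    · simp only [Nat.zero_le, if_true]
      exact h0
    · simp only [Nat.not_succ_le_self, if_false]
    · rcases Nat.lt_or_ge i K with h | h
      · simp only [h.le, Nat.succ_le_of_lt h, if_true]
        exact hs i h
      · have e : i = K := by omega
        subst e
        simp only [le_refl, Nat.not_succ_le_self, if_true, if_false]
        rw [hK]
        exact hr

/-- A walk with small steps through a finite set. -/
private theorem wk_walk {Y : Type} [MetricSpace Y] [ConnectedSpace Y] {ε : ℝ} (hε : 0 < ε)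
    (a : Y) (F : List Y) : ∃ (L : ℕ) (z : ℕ → Y), (∀ u < L, dist (z u) (z (u + 1)) < ε) ∧
      ∀ s ∈ F, ∃ u ≤ L, z u = s := by
  induction F with
  | nil => exact ⟨0, fun _ => a, fun u hu => absurd hu (Nat.not_lt_zero u),
      fun s hs => absurd hs List.not_mem_nil⟩
  | cons s F ih =>
    obtain ⟨L, z, h1, h2⟩ := ih
    obtain ⟨K, c, c0, cK, hc⟩ := wk_seq (wk_chain hε (z L) s)
    refine ⟨L + K, fun i => if i ≤ L then z i else c (i - L), fun u hu => ?_, fun x hx => ?_⟩
    · rcases lt_trichotomy u L with h | h | h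
      · simp only [h.le, Nat.succ_le_of_lt h, if_true]
        exact h1 u h
      · subst h
        have e : u + 1 - u = 1 := by omega
        simp only [le_refl, Nat.not_succ_le_self, if_true, if_false, e]
        have h3 := hc 0 (by omega)
        rwa [c0, zero_add] at h3
      · have e : u + 1 - L = (u - L) + 1 := by omega
        simp only [not_le.2 h, not_le.2 (Nat.lt_succ_of_lt h), if_false, e]
        exact hc (u - L) (by omega)
    · rcases List.mem_cons.1 hx with rfl | hx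
      · refine ⟨L + K, le_rfl, ?_⟩
        by_cases hK : K = 0
        · subst hK
          simp only [Nat.add_zero, le_refl, if_true]
          rw [← c0]
          exact cK
        · have h3 : ¬ (L + K ≤ L) := by omega
          have e : L + K - L = K := by omega
          simp only [h3, if_false, e]
          exact cK
      · obtain ⟨u, hu, hz⟩ := h2 x hx
        refine ⟨u, by omega, ?_⟩
        simp only [hu, if_true]
        exact hz

private theorem wk_dist {V : Type} {G : SimpleGraph V} {a b : V} (h : Ea G a b) :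
    G.dist a b ≤ 1 := by
  rcases h with rfl | h
  · rw [SimpleGraph.dist_self]
    exact Nat.zero_le _
  · exact (SimpleGraph.dist_eq_one_iff_adj.2 h).le

/-- Row V: walks from chain covers. -/
theorem vwalks {E Y : Type} [MetricSpace E] [MetricSpace Y] [CompactSpace Y] [ConnectedSpace Y]
    (hY : Chainable Y) (f : Y → E) (hf : Continuous f) (Lv : Levels (range f)) (n : ℕ) :
    ∃ (l : ℕ) (w : ℕ → Lv.T n), ∀ m, n ≤ m → ∃ (L : ℕ) (W : ℕ → Lv.T m) (P : ℕ → ℕ),
      (∀ u < L, Ea (Lv.G m) (W u) (W (u + 1))) ∧ (∀ u < L, Nr (P u) (P (u + 1))) ∧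
      (∀ u ≤ L, P u ≤ l ∧ (Lv.G n).dist (Lv.g m n (W u)) (w (P u)) ≤ 1) ∧
      ∀ z ∈ range f, ∃ u ≤ L, W u = Lv.t m z := by
  classical
  have hu := CompactSpace.uniformContinuous_of_continuous hf
  rw [Metric.uniformContinuous_iff] at hu
  obtain ⟨y₀⟩ : Nonempty Y := inferInstance
  obtain ⟨δ, hδ, hloc⟩ := Lv.loc n
  obtain ⟨ε, hε, hfε⟩ := hu δ hδ
  obtain ⟨k, U, hUo, hUc, hUd, hUi⟩ := hY ε hε
  have hne : ∀ i, (U i).Nonempty := by
    intro i
    obtain ⟨y, hy, -⟩ := (hUi i i).2 ⟨by omega, by omega⟩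
    exact ⟨y, hy⟩
  choose y hy using hne
  have hbd : ∀ i, Bornology.IsBounded (U i) := fun i => (isCompact_univ.isBounded).subset
    (subset_univ _)
  refine ⟨k, fun i => if h : i < k then Lv.t n (f (y ⟨i, h⟩)) else Lv.t n (f y₀),
    fun m hm => ?_⟩
  obtain ⟨δ', hδ', hloc'⟩ := Lv.loc m
  obtain ⟨ε₁, hε₁, hfε₁⟩ := hu δ' hδ'
  obtain ⟨ε₂, hε₂, hleb⟩ := lebesgue_number_lemma_of_metric (s := (univ : Set Y))
    isCompact_univ hUo (by rw [hUc])
  obtain ⟨ε₃, hε₃, h31, h32⟩ : ∃ ε₃ : ℝ, 0 < ε₃ ∧ ε₃ ≤ ε₁ ∧ ε₃ ≤ ε₂ :=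
    ⟨min ε₁ ε₂, lt_min hε₁ hε₂, min_le_left _ _, min_le_right _ _⟩
  let _ := Lv.fin m
  -- representatives of the tiles
  obtain ⟨rep, hrep⟩ : ∃ rep : Lv.T m → Y, ∀ y, Lv.t m (f (rep (Lv.t m (f y)))) =
      Lv.t m (f y) := by
    refine ⟨fun τ => if h : ∃ y, Lv.t m (f y) = τ then h.choose else y₀, fun y => ?_⟩
    have h : ∃ y', Lv.t m (f y') = Lv.t m (f y) := ⟨y, rfl⟩
    simp only [h, dif_pos]
    exact h.choose_spec
  obtain ⟨L, z, hz1, hz2⟩ := wk_walk hε₃ y₀ (Finset.univ.image rep).toList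
  choose i hi using fun u => hleb (z u) (mem_univ _)
  refine ⟨L, fun u => Lv.t m (f (z u)), fun u => (i u : ℕ), fun u hu => ?_, fun u hu => ?_,
    fun u _ => ⟨(i u).2.le, ?_⟩, fun x hx => ?_⟩
  · exact hloc' _ ⟨_, rfl⟩ _ ⟨_, rfl⟩ (hfε₁ ((hz1 u hu).trans_le h31))
  · have h1 : (U (i u) ∩ U (i (u + 1))).Nonempty := by
      refine ⟨z (u + 1), hi u ?_, hi (u + 1) (Metric.mem_ball_self hε₂)⟩
      rw [Metric.mem_ball, dist_comm]
      exact (hz1 u hu).trans_le h32
    exact (hUi _ _).1 h1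
  · have h1 : z u ∈ U (i u) := hi u (Metric.mem_ball_self hε₂)
    simp only [(i u).2, dif_pos, Fin.eta]
    rw [Lv.t_g m n hm _ ⟨_, rfl⟩]
    refine wk_dist (hloc _ ⟨_, rfl⟩ _ ⟨_, rfl⟩ (hfε ?_))
    exact (Metric.dist_le_diam_of_mem (hbd _) h1 (hy _)).trans_lt (hUd _)
  · obtain ⟨y', rfl⟩ := hx
    obtain ⟨u, hu, he⟩ := hz2 (rep (Lv.t m (f y'))) (by
      rw [Finset.mem_toList]
      exact Finset.mem_image_of_mem _ (Finset.mem_univ _))
    refine ⟨u, hu, ?_⟩
    change Lv.t m (f (z u)) = _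
    rw [he, hrep]

end Pool.Agent.Lib.MP_40f35d_gt.Sw
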