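import Pool.Agent.Lib.MP_40f35d_gt.Sw.Readable
import Pool.Agent.Lib.MP_40f35d_gt.Sw.Walks
import Pool.Agent.Lib.MP_40f35d_gt.Sw.Eng
import Pool.Agent.Lib.MP_40f35d_gt.Sw.Levels

/-!
# MP_40f35d_gt, project Sw: the main theorem
-/

set_option autoImplicit false

open Set Topology

namespace Pool.Agent.Lib.MP_40f35d_gt.Sw

open Pool.Agent.Lib.MP_40f35d_gt.H

/-- Subcontinua of weakly chainable planar tree-like continua are weakly chainable. -/
theorem main (X : Set (EuclideanSpace ℝ (Fin 2))) (hX : IsCompact X) (hXc : IsConnected X)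
    (hT : TreeLike X) (hWC : WC X) (K : Set (EuclideanSpace ℝ (Fin 2))) (hKX : K ⊆ X)
    (hKc : IsCompact K) (hKn : IsConnected K) : WC K := by
  obtain ⟨Y, iY, hYc, hYn, hY, f, hf, hfX⟩ := hWC
  subst hfX
  obtain ⟨Lv⟩ := levels (range f) hX hXc hT
  refine wc_of_reads (range f) Lv K hKX hKc hKn fun n => ?_
  let _ := Lv.fin n
  let _ := Lv.dec n
  obtain ⟨l, w, hlw⟩ := vwalks hY f hf Lv n
  obtain ⟨B, hB⟩ := readable (Lv.G n) (Lv.tree n) l w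
  refine ⟨B, fun m hm a ha x hx => ?_⟩
  obtain ⟨L, W, P, h1, h2, h3, h4⟩ := hlw m hm
  obtain ⟨i, hi, hia⟩ := h4 a (hKX ha)
  obtain ⟨j, hj, hjx⟩ := h4 x (hKX hx)
  obtain ⟨h, sg, hA, hP⟩ := Lv.ang m n hm
  have := hB (Lv.G m) (Lv.tree m) (Lv.g m n) (Lv.g_adj m n hm) h sg hA
    hP L W P h1 h2 h3 i hi j hj
  rwa [hia, hjx] at this

end Pool.Agent.Lib.MP_40f35d_gt.Sw
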