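import Pool.Agent.Lib.MP_40f35d_gt.Sw.Hex
import Pool.Agent.Lib.MP_40f35d_gt.Gs.Ty

/-!
Row C5: an uncrossed piece is read by a bounded word.
-/

set_option autoImplicit false

open Set Topology

namespace Pool.Agent.Lib.MP_40f35d_gt.Sw

open Pool.Agent.Lib.MP_40f35d_gt.H

section

variable {V : Type} {Gm : SimpleGraph V}

private theorem pc_nr_symm {i j : ℕ} (h : Nr i j) : Nr j i := ⟨h.2, h.1⟩

private theorem pc_ea_symm {a b : V} (h : Ea Gm a b) : Ea Gm b a :=
  h.elim (fun h => Or.inl h.symm) fun h => Or.inr h.symm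

/-- the walk from `W u` to `W v` -/
private theorem pc_walk {W : ℕ → V} {L : ℕ} (hW : ∀ u < L, Ea Gm (W u) (W (u + 1))) {u : ℕ} :
    ∀ v, u ≤ v → v ≤ L → ∃ p : Gm.Walk (W u) (W v), ∀ x ∈ p.support, x ∈ W '' Icc u v := by
  intro v huv
  induction v, huv using Nat.le_induction with
  | base =>
    intro _
    refine ⟨SimpleGraph.Walk.nil, fun x hx => ?_⟩
    rw [SimpleGraph.Walk.support_nil, List.mem_singleton] at hx
    exact ⟨u, ⟨le_rfl, le_rfl⟩, hx.symm⟩
  | succ v huv ih =>
    intro hv
    obtain ⟨p, hp⟩ := ih (by omega)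
    rcases hW v (by omega) with h | h
    · refine ⟨p.copy rfl h, fun x hx => ?_⟩
      rw [SimpleGraph.Walk.support_copy] at hx
      obtain ⟨i, hi, rfl⟩ := hp x hx
      exact ⟨i, ⟨hi.1, hi.2.trans (Nat.le_succ v)⟩, rfl⟩
    · refine ⟨p.concat h, fun x hx => ?_⟩
      rw [SimpleGraph.Walk.support_concat, List.mem_append,
        List.mem_singleton] at hx
      rcases hx with hx | hx
      · obtain ⟨i, hi, rfl⟩ := hp x hx
        exact ⟨i, ⟨hi.1, hi.2.trans (Nat.le_succ v)⟩, rfl⟩
      · exact ⟨v + 1, ⟨by omega, le_rfl⟩, hx.symm⟩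

private theorem pc_walk' {W : ℕ → V} {L : ℕ} (hW : ∀ u < L, Ea Gm (W u) (W (u + 1))) {u v : ℕ}
    (hu : u ≤ L) (hv : v ≤ L) :
    ∃ p : Gm.Walk (W u) (W v), ∀ x ∈ p.support, x ∈ W '' Icc (min u v) (max u v) := by
  rcases le_total u v with h | h
  · rw [min_eq_left h, max_eq_right h]
    exact pc_walk hW v h hv
  · rw [min_eq_right h, max_eq_left h]
    obtain ⟨p, hp⟩ := pc_walk hW u h hu
    refine ⟨p.reverse, fun x hx => hp x ?_⟩
    rwa [SimpleGraph.Walk.support_reverse, List.mem_reverse] at hx

/-- the vertices of the path of a tree are between its ends -/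
private theorem pc_btw (hGm : Gm.IsTree) {a b : V} {q : Gm.Walk a b} (hq : q.IsPath) {x : V}
    (hx : x ∈ q.support) : Btw Gm a b x := by
  classical
  intro p
  have h1 := (hGm.existsUnique_path a b).unique hq p.bypass_isPath
  rw [h1] at hx
  exact p.support_bypass_subset_support hx

end

/-- Row C5: an uncrossed piece is read by a bounded word. -/
theorem read_piece {T : Type} (G : SimpleGraph T) (hG : G.IsTree) (l : ℕ) (w : ℕ → T) :
    ∃ B : ℕ, ∀ {V : Type} (Gm : SimpleGraph V) (_ : Gm.IsTree) (g : V → T) (L : ℕ) (W : ℕ → V)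
      (P : ℕ → ℕ) (_ : ∀ u < L, Ea Gm (W u) (W (u + 1))) (_ : ∀ u < L, Nr (P u) (P (u + 1)))
      (_ : ∀ u ≤ L, P u ≤ l) (a b : V)
      (_ : Unc Gm (fun p u => G.dist (g p) (w (P u)) ≤ 2) W L a b),
      ∃ ω : List T, ω.length ≤ B ∧ ω ≠ [] ∧ Reads Gm g G ω a b := by
  have _ := hG
  refine ⟨Gs.bdRep l + 1, fun {V} Gm hGm g L W P hW hP hPl a b hU => ?_⟩
  obtain ⟨u, hu, v, hv, rfl, rfl, hC⟩ := hU
  obtain ⟨lo, hlo⟩ : ∃ lo, lo = min u v := ⟨_, rfl⟩
  obtain ⟨hi, hhi⟩ : ∃ hi, hi = max u v := ⟨_, rfl⟩
  have hlh : lo ≤ hi := by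
    rw [hlo, hhi]
    exact min_le_max
  have hhL : hi ≤ L := by
    rw [hhi]
    exact max_le hu hv
  rw [← hlo, ← hhi] at hC
  obtain ⟨q, hq, -⟩ := hGm.existsUnique_path (W u) (W v)
  obtain ⟨p0, hp0⟩ := pc_walk' hW hu hv
  rw [← hlo, ← hhi] at hp0
  have hbt : ∀ i, Btw Gm (W u) (W v) (q.getVert i) := fun i =>
    pc_btw hGm hq (q.getVert_mem_support i)
  have hD : ∀ i, q.getVert i ∈ W '' Icc lo hi := fun i => hp0 _ (hbt i p0)
  have hadj : ∀ i, i < q.length → Gm.Adj (q.getVert i) (q.getVert (i + 1)) := fun i hi =>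
    q.adj_getVert_succ hi
  have hPn : ∀ i j, i ≤ L → j ≤ L → Nr i j → Nr (P i) (P j) := by
    intro i j hi hj hij
    rcases lt_trichotomy i j with h | h | h
    · obtain rfl : j = i + 1 := by
        have := hij.2
        omega
      exact hP i (by omega)
    · rw [h]
      exact ⟨Nat.le_succ _, Nat.le_succ _⟩
    · obtain rfl : i = j + 1 := by
        have := hij.1
        omega
      exact pc_nr_symm (hP j (by omega))
  rcases hex q.length (hi - lo) (fun i j => G.dist (g (q.getVert i)) (w (P (lo + j))) ≤ 2) with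
    ⟨R, a', u', h1, h2, h3, h4⟩ | ⟨R, a', u', h1, h2, h3, h4⟩
  · -- a near path
    have hs1 : ∀ i, i ≤ R → P (lo + u' i) ≤ l := fun i hi =>
      hPl _ (by have := (h4 i hi).2.1; omega)
    have hs2 : ∀ i, i < R → Nr (P (lo + u' i)) (P (lo + u' (i + 1))) := fun i hi => by
      have e1 := (h4 i hi.le).2.1
      have e2 := (h4 (i + 1) hi).2.1
      have e3 := (h3 i hi).2
      exact hPn _ _ (by omega) (by omega) ⟨by have := e3.1; omega, by have := e3.2; omega⟩
    obtain ⟨w', m, g1, g2, g3, g4⟩ := Gs.exists_rep l 0 (fun i => (P (lo + u' i) : ℤ)) 0 R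
      (Nat.zero_le _) (fun i _ hi => by
        have := hs1 i hi
        constructor <;> omega)
      (fun i _ hi => by
        obtain ⟨e1, e2⟩ := hs2 i hi
        rw [abs_le]
        constructor <;> omega)
    obtain ⟨K, t, r, k1, k2, k3, k4, k5, k6⟩ := g4.seq
    refine ⟨(List.range (m + 1)).map fun i => w (w' i).toNat, ?_, ?_, ?_⟩
    · rw [List.length_map, List.length_range]
      omega
    · intro h
      have h5 := congrArg List.length h
      rw [List.length_map, List.length_range, List.length_nil] at h5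
      omega
    · refine ⟨K, fun k => q.getVert (a' (t k)), r, ?_, ?_, k2, ?_, fun k hk => ?_, fun k hk => ?_⟩
      · simp only [k1, h1, SimpleGraph.Walk.getVert_zero]
      · simp only [k3, h2, SimpleGraph.Walk.getVert_length]
      · rw [List.length_map, List.length_range, k4]
        omega
      · obtain ⟨l1, l2, l3, l4⟩ := k6 k hk
        refine ⟨?_, ⟨l3, l4⟩⟩
        have m1 := (k5 k hk.le).2.1
        have m2 := (k5 (k + 1) hk).2.1
        have hnr : Nr (a' (t k)) (a' (t (k + 1))) := by
          rcases lt_trichotomy (t k) (t (k + 1)) with h | h | h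
          · have e : t (k + 1) = t k + 1 := by omega
            rw [e]
            exact (h3 (t k) (by omega)).1
          · rw [h]
            exact ⟨Nat.le_succ _, Nat.le_succ _⟩
          · have e : t k = t (k + 1) + 1 := by omega
            rw [e]
            exact pc_nr_symm (h3 (t (k + 1)) (by omega)).1
        have n1 := (h4 (t k) m1).1
        have n2 := (h4 (t (k + 1)) m2).1
        show Ea Gm (q.getVert (a' (t k))) (q.getVert (a' (t (k + 1))))
        rcases lt_trichotomy (a' (t k)) (a' (t (k + 1))) with h | h | h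
        · have e : a' (t (k + 1)) = a' (t k) + 1 := by
            have := hnr.2
            omega
          rw [e]
          exact Or.inr (hadj _ (by omega))
        · rw [h]
          exact Or.inl rfl
        · have e : a' (t k) = a' (t (k + 1)) + 1 := by
            have := hnr.1
            omega
          rw [e]
          exact Or.inr (hadj _ (by omega)).symm
      · obtain ⟨-, m1, -, m2, m3⟩ := k5 k hk
        refine ⟨hbt _, w (P (lo + u' (t k))), ?_, (h4 (t k) m1).2.2⟩
        rw [List.getElem?_map, List.getElem?_range (by omega), Option.map_some, ← m3,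
          Int.toNat_natCast]
  · -- a far path
    exfalso
    apply hC
    refine ⟨q.getVert (a' 0), hD _, q.getVert (a' R), hD _, ?_, ?_, ?_⟩
    · have := (h4 0 (Nat.zero_le _)).2.2
      rwa [h1, Nat.add_zero] at this
    · have := (h4 R le_rfl).2.2
      rwa [h2, Nat.add_sub_cancel' hlh] at this
    · have key : ∀ r, r ≤ R → Relation.ReflTransGen
          (FarStep Gm (fun p u => G.dist (g p) (w (P u)) ≤ 2) (W '' Icc lo hi) lo hi)
          (q.getVert (a' 0), lo) (q.getVert (a' r), lo + u' r) := by
        intro r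
        induction r with
        | zero =>
          intro _
          rw [h1, Nat.add_zero]
        | succ r ih =>
          intro hr
          refine (ih (by omega)).tail ?_
          have e1 := h4 r (by omega)
          have e2 := h4 (r + 1) hr
          refine ⟨⟨hD _, Nat.le_add_right _ _, ?_, e1.2.2⟩, ⟨hD _, Nat.le_add_right _ _, ?_,
            e2.2.2⟩, ?_⟩
          · simp only
            omega
          · simp only
            omega
          · rcases h3 r (by omega) with ⟨e3, e4⟩ | ⟨e3, e4⟩
            · left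
              simp only
              rw [e3]
              exact ⟨rfl, by omega⟩
            · right
              simp only
              refine ⟨by omega, ?_⟩
              rcases e4 with e4 | e4
              · rw [e4]
                exact hadj _ (by omega)
              · rw [e4]
                exact (hadj _ (by omega)).symm
      have h5 := key R le_rfl
      rwa [h2, Nat.add_sub_cancel' hlh] at h5

end Pool.Agent.Lib.MP_40f35d_gt.Sw
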