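import Pool.Agent.Lib.MP_40f35d_gt.Sw.Defs2

/-!
# Small lemmas for the assembly of `readable`
-/

set_option autoImplicit false

open Set Topology

namespace Pool.Agent.Lib.MP_40f35d_gt.Sw

open Pool.Agent.Lib.MP_40f35d_gt.H

theorem conn_symm {V : Type} (G : SimpleGraph V) (D : Set V) (a b : V)
    (h : Relation.ReflTransGen (fun x y => x ∈ D ∧ y ∈ D ∧ G.Adj x y) a b) :
    Relation.ReflTransGen (fun x y => x ∈ D ∧ y ∈ D ∧ G.Adj x y) b a := by
  induction h with
  | refl => exact Relation.ReflTransGen.refl
  | tail _ h ih => exact Relation.ReflTransGen.head ⟨h.2.1, h.1, h.2.2.symm⟩ ih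

/-- Balls in a connected graph are connected. -/
theorem conn_ball {T : Type} (G : SimpleGraph T) (hG : G.Connected) (z : T) (r : ℕ) :
    Conn G {t | G.dist t z ≤ r} := by
  have key : ∀ k : ℕ, ∀ a, G.dist a z = k → k ≤ r →
      Relation.ReflTransGen (fun x y => x ∈ {t | G.dist t z ≤ r} ∧ y ∈ {t | G.dist t z ≤ r} ∧
        G.Adj x y) a z := by
    intro k
    induction k with
    | zero =>
      intro a ha _
      rw [(hG a z).dist_eq_zero_iff.1 ha]
    | succ k ih =>
      intro a ha hk
      obtain ⟨p, hp⟩ := (hG a z).exists_walk_length_eq_dist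
      cases p with
      | nil => simp at ha
      | @cons _ b _ hab q =>
        have h1 : G.dist b z ≤ q.length := SimpleGraph.dist_le q
        have h2 : q.length + 1 = k + 1 := by
          rw [← ha, ← hp, SimpleGraph.Walk.length_cons]
        have h3 : G.dist a z ≤ G.dist a b + G.dist b z := hG.dist_triangle
        have h4 : G.dist a b = 1 := SimpleGraph.dist_eq_one_iff_adj.2 hab
        have h5 : G.dist b z = k := by omega
        refine Relation.ReflTransGen.head ⟨?_, ?_, hab⟩ (ih b h5 (by omega))
        · show G.dist a z ≤ r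
          omega
        · show G.dist b z ≤ r
          omega
  intro a ha b hb
  exact (key _ a rfl ha).trans (conn_symm G _ b z (key _ b rfl hb))

/-- The set of vertices visited by a walk is connected. -/
theorem conn_walk {V : Type} (G : SimpleGraph V) (W : ℕ → V) (u0 u1 : ℕ)
    (hW : ∀ u, u0 ≤ u → u < u1 → Ea G (W u) (W (u + 1))) : Conn G (W '' Icc u0 u1) := by
  have key : ∀ d u, u0 ≤ u → u + d ≤ u1 →
      Relation.ReflTransGen (fun x y => x ∈ W '' Icc u0 u1 ∧ y ∈ W '' Icc u0 u1 ∧ G.Adj x y)
        (W u) (W (u + d)) := by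
    intro d
    induction d with
    | zero => intro u _ _; exact Relation.ReflTransGen.refl
    | succ d ih =>
      intro u h0 h1
      refine (ih u h0 (by omega)).trans ?_
      have e : u + (d + 1) = u + d + 1 := by omega
      rw [e]
      rcases hW (u + d) (by omega) (by omega) with h | h
      · rw [← h]
      · exact Relation.ReflTransGen.single ⟨⟨u + d, ⟨by omega, by omega⟩, rfl⟩,
          ⟨u + d + 1, ⟨by omega, by omega⟩, rfl⟩, h⟩
  rintro _ ⟨u, ⟨hu0, hu1⟩, rfl⟩ _ ⟨v, ⟨hv0, hv1⟩, rfl⟩
  rcases le_total u v with h | h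
  · have := key (v - u) u hu0 (by omega)
    rwa [show u + (v - u) = v by omega] at this
  · have := key (u - v) v hv0 (by omega)
    rw [show v + (u - v) = u by omega] at this
    exact conn_symm G _ _ _ this

theorem nr_refl (i : ℕ) : Nr i i := ⟨by omega, by omega⟩

/-- One letter reads a trivial arc. -/
theorem reads_self {T V : Type} (Gm : SimpleGraph V) (g : V → T) (G : SimpleGraph T) (a : V) :
    Reads Gm g G [g a] a a := by
  refine ⟨0, fun _ => a, fun _ => 0, rfl, rfl, rfl, rfl, fun r hr => absurd hr (by omega), ?_⟩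
  intro r _
  refine ⟨fun p => p.start_mem_support, g a, rfl, ?_⟩
  simp

end Pool.Agent.Lib.MP_40f35d_gt.Sw
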