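import Pool.Agent.Lib.MP_40f35d_gt.Sw.Defs2
import Pool.Agent.Lib.MP_40f35d_gt.Gs.Ty

/-!
Row C2: finitely many synchronisation types.
-/

set_option autoImplicit false

namespace Pool.Agent.Lib.MP_40f35d_gt.Sw

open Pool.Agent.Lib.MP_40f35d_gt.H

theorem sync_of_syn {s : ℕ → ℕ} {n : ℕ} {s' : ℕ → ℕ} {n' : ℕ} (h : Gs.Syn s 0 n s' 0 n') :
    Sync s n s' n' := by
  obtain ⟨K, a, b, h1, h2, h3, h4, h5, h6⟩ := h.seq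
  refine ⟨K, a, b, h1, h2, h3, h4, fun k hk => ?_, fun k hk => ?_⟩
  · obtain ⟨h7, h8, h9, h10⟩ := h6 k hk
    exact ⟨⟨h7, h8⟩, ⟨h9, h10⟩⟩
  · obtain ⟨_, h7, _, h8, h9⟩ := h5 k hk
    exact ⟨h7, h8, h9⟩

/-- Row C2: finitely many synchronisation types. -/
theorem sync_fin (l : ℕ) : ∃ (k : ℕ) (c : (ℕ → ℕ) → ℕ → Fin k), ∀ (s : ℕ → ℕ) (n : ℕ)
    (s' : ℕ → ℕ) (n' : ℕ), (∀ t ≤ n, s t ≤ l) → (∀ t < n, Nr (s t) (s (t + 1))) →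
    (∀ t ≤ n', s' t ≤ l) → (∀ t < n', Nr (s' t) (s' (t + 1))) → c s n = c s' n' →
    Sync s n s' n' := by
  obtain ⟨C, hC, code, h⟩ := Gs.exists_code l
  obtain ⟨k, ⟨e⟩⟩ := Finite.exists_equiv_fin C
  refine ⟨k, fun s n => e (code s n), fun s n s' n' h1 h2 h3 h4 h5 => ?_⟩
  exact sync_of_syn (h s n s' n' h1 (fun i hi => h2 i hi) h3 (fun i hi => h4 i hi)
    (e.injective h5))

end Pool.Agent.Lib.MP_40f35d_gt.Sw
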