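import Pool.Agent.Lib.MP_40f35d_gt.Sw.Defs2

/-!
# Three windows of one type (row C3)
-/

set_option autoImplicit false

open Set Topology

namespace Pool.Agent.Lib.MP_40f35d_gt.Sw

open Pool.Agent.Lib.MP_40f35d_gt.H

/-- Antisymmetric functions on the edges of a tree are gradients. -/
theorem tree_pot {T : Type} (G : SimpleGraph T) (hG : G.IsTree) (w : T → T → ℤ)
    (hw : ∀ a b, G.Adj a b → w a b = - w b a) :
    ∃ φ : T → ℤ, ∀ a b, G.Adj a b → φ b - φ a = w a b := by
  classical
  obtain ⟨r⟩ := hG.1.nonempty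
  choose q hq hu using fun v => hG.existsUnique_path r v
  refine ⟨fun v => ((q v).darts.map fun d => w d.fst d.snd).sum, fun a b hab => ?_⟩
  by_cases h : b ∈ (q a).support
  · have e := hG.2.path_concat (hq b) (hq a) hab.symm h
    have e2 : ((q a).darts.map fun d => w d.fst d.snd).sum =
        ((q b).darts.map fun d => w d.fst d.snd).sum + w b a := by
      rw [e, SimpleGraph.Walk.darts_concat, List.concat_eq_append, List.map_append,
        List.sum_append]
      simp
    show ((q b).darts.map fun d => w d.fst d.snd).sum -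
      ((q a).darts.map fun d => w d.fst d.snd).sum = w a b
    rw [e2, hw a b hab]
    ring
  · have h' : a ∈ (q b).support :=
      hG.2.mem_support_of_ne_mem_support_of_adj_of_isPath (hq b) (hq a) hab.symm h
    have e := hG.2.path_concat (hq a) (hq b) hab h'
    have e2 : ((q b).darts.map fun d => w d.fst d.snd).sum =
        ((q a).darts.map fun d => w d.fst d.snd).sum + w a b := by
      rw [e, SimpleGraph.Walk.darts_concat, List.concat_eq_append, List.map_append,
        List.sum_append]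
      simp
    show ((q b).darts.map fun d => w d.fst d.snd).sum -
      ((q a).darts.map fun d => w d.fst d.snd).sum = w a b
    rw [e2]
    ring

theorem ea_symm {V : Type} {G : SimpleGraph V} {a b : V} (h : Ea G a b) : Ea G b a := by
  rcases h with h | h
  · exact Or.inl h.symm
  · exact Or.inr h.symm

theorem ea_map {T V : Type} {G : SimpleGraph T} {Gm : SimpleGraph V} {g : V → T}
    (hg : ∀ a b, Gm.Adj a b → Ea G (g a) (g b)) {a b : V} (h : Ea Gm a b) :
    Ea G (g a) (g b) := by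
  rcases h with h | h
  · exact Or.inl (by rw [h])
  · exact hg _ _ h

section

variable {T : Type} [DecidableEq T] {G : SimpleGraph T} {h : T → T → T → ℤ} {sg : T → T → ℤ}

theorem hw_self (a c : T) : hw h a a c = 0 := by
  simp [hw]

theorem hw_anti (hA : Ang G h sg) {a b c : T} (hab : Ea G a b) (hac : a ≠ c) (hbc : b ≠ c) :
    hw h a b c = - hw h b a c := by
  rcases hab with hab | hab
  · rw [hab, hw_self]
    simp
  · have h1 : a ≠ b := hab.ne
    have h2 : b ≠ a := hab.ne'
    rw [hw, hw, if_neg h1, if_neg h2]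
    exact hA.anti a b c hab hac hbc

/-- Parity of the weight of a move of the first label. -/
theorem hw_par1 (hA : Ang G h sg) {a b c : T} (hab : Ea G a b) (hac : a ≠ c) (hbc : b ≠ c) :
    (2 : ℤ) ∣ hw h a b c - (sg b c - sg a c) := by
  rcases hab with hab | hab
  · subst hab
    simp [hw]
  · rw [hw, if_neg hab.ne]
    exact hA.par a b c hab hac hbc

/-- Parity of the weight of a move of the second label. -/
theorem hw_par2 (hA : Ang G h sg) {a c d : T} (hcd : Ea G c d) (hac : a ≠ c) (had : a ≠ d) :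
    (2 : ℤ) ∣ hw h c d a - (sg a d - sg a c) := by
  have h1 := hw_par1 hA hcd hac.symm had.symm
  have h2 := hA.odd a c hac
  have h3 := hA.odd a d had
  omega

end

/-- Two times of a path of the game which differ by at most one. -/
theorem WPath.near_step {T V : Type} {Gm : SimpleGraph V} {g : V → T} {B : ℕ → Set T}
    {D : Set V} {n : ℕ} {x p : ℕ → V} {s : ℕ → ℕ} (hW : WPath Gm g B D n x p s) {t t' : ℕ}
    (ht : t ≤ n) (ht' : t' ≤ n) (htt : Nr t t') :
    (Ea Gm (x t) (x t') ∧ p t = p t' ∧ s t = s t') ∨ (x t = x t' ∧ Ea Gm (p t) (p t')) := by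
  obtain ⟨h1, h2⟩ := htt
  rcases lt_trichotomy t t' with h | h | h
  · have e : t' = t + 1 := by omega
    subst e
    rcases hW.step t (by omega) with hs | hs
    · exact Or.inl ⟨Or.inr hs.1, hs.2.1, hs.2.2⟩
    · exact Or.inr ⟨hs.1, hs.2.1⟩
  · subst h
    exact Or.inl ⟨Or.inl rfl, rfl, rfl⟩
  · have e : t = t' + 1 := by omega
    subst e
    rcases hW.step t' (by omega) with hs | hs
    · exact Or.inl ⟨Or.inr hs.1.symm, hs.2.1.symm, hs.2.2.symm⟩
    · exact Or.inr ⟨hs.1.symm, ea_symm hs.2.1⟩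

/-- The weight of the own path up to the time `t`. -/
def om {T V : Type} [DecidableEq T] (h : T → T → T → ℤ) (g : V → T) (x p : ℕ → V) : ℕ → ℤ
  | 0 => 0
  | t + 1 => om h g x p t + (hw h (g (x t)) (g (x (t + 1))) (g (p t)) +
      hw h (g (p t)) (g (p (t + 1))) (g (x (t + 1))))

section

variable {T V : Type} [DecidableEq T] {G : SimpleGraph T} {h : T → T → T → ℤ} {sg : T → T → ℤ}
  {Gm : SimpleGraph V} {g : V → T} {B : ℕ → Set T} {D : Set V} {n : ℕ} {x p : ℕ → V} {s : ℕ → ℕ}

omit [DecidableEq T] in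
theorem WPath.ne (hW : WPath Gm g B D n x p s) {t t' : ℕ} (ht : t ≤ n) (ht' : t' ≤ n)
    (hs : s t = s t') : g (x t) ≠ g (p t') := by
  intro he
  apply hW.far t ht
  rw [he, hs]
  exact hW.near t' ht'

/-- The change of the own weight between two near times. -/
theorem om_step (hA : Ang G h sg) (hg : ∀ a b, Gm.Adj a b → Ea G (g a) (g b))
    (hW : WPath Gm g B D n x p s) {t t' : ℕ} (ht : t ≤ n) (ht' : t' ≤ n) (htt : Nr t t') :
    om h g x p t' - om h g x p t =
      hw h (g (x t)) (g (x t')) (g (p t)) + hw h (g (p t)) (g (p t')) (g (x t')) := by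
  obtain ⟨h1, h2⟩ := htt
  rcases lt_trichotomy t t' with h' | h' | h'
  · have e : t' = t + 1 := by omega
    subst e
    rw [om]
    ring
  · subst h'
    rw [hw_self, hw_self]
    ring
  · have e : t = t' + 1 := by omega
    subst e
    rw [om]
    rcases hW.step t' (by omega) with hs | hs
    · rw [← hs.2.1, hw_self, hw_self,
        hw_anti hA (hg _ _ hs.1) (hW.ne ht' ht' rfl) (by rw [hs.2.1]; exact hW.ne ht ht rfl)]
      ring
    · rw [← hs.1, hw_self, hw_self,
        hw_anti hA (ea_map hg hs.2.1) (hW.ne ht' ht' rfl).symm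
          (by rw [hs.1]; exact (hW.ne ht ht rfl).symm)]
      ring

/-- Parity of the own weight. -/
theorem om_par (hA : Ang G h sg) (hg : ∀ a b, Gm.Adj a b → Ea G (g a) (g b))
    (hW : WPath Gm g B D n x p s) : ∀ t ≤ n,
    (2 : ℤ) ∣ om h g x p t - (sg (g (x t)) (g (p t)) - sg (g (x 0)) (g (p 0))) := by
  intro t
  induction t with
  | zero =>
    intro _
    simp [om]
  | succ t ih =>
    intro ht
    have h0 := ih (by omega)
    rw [om]
    rcases hW.step t (by omega) with hs | hs
    · have h1 := hw_par1 hA (hg _ _ hs.1) (hW.ne (t := t) (t' := t) (by omega) (by omega) rfl)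
        (hW.ne (t := t + 1) (t' := t) ht (by omega) hs.2.2.symm)
      rw [← hs.2.1, hw_self]
      omega
    · have hne : g (x t) ≠ g (p (t + 1)) := by
        rw [hs.1]
        exact hW.ne ht ht rfl
      have h1 := hw_par2 hA (ea_map hg hs.2.1)
        (hW.ne (t := t) (t' := t) (by omega) (by omega) rfl) hne
      rw [← hs.1, hw_self]
      omega

end

/-- The laws of an angle function on two disjoint sets of small tiles. -/
structure AF {T V : Type} [DecidableEq T] (Gm : SimpleGraph V) (g : V → T)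
    (h : T → T → T → ℤ) (D D' : Set V) (F : V → V → ℤ) : Prop where
  one : ∀ x ∈ D, ∀ x' ∈ D, ∀ p ∈ D', Ea Gm x x' → g x ≠ g p → g x' ≠ g p →
    F x' p - F x p = hw h (g x) (g x') (g p)
  two : ∀ x ∈ D, ∀ p ∈ D', ∀ p' ∈ D', Ea Gm p p' → g x ≠ g p → g x ≠ g p' →
    F x p' - F x p = hw h (g p) (g p') (g x)

theorem AF.swap {T V : Type} [DecidableEq T] {Gm : SimpleGraph V} {g : V → T}
    {h : T → T → T → ℤ} {D D' : Set V} {F : V → V → ℤ} (hF : AF Gm g h D D' F) :
    AF Gm g h D' D (fun x p => F p x) :=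
  ⟨fun x hx x' hx' p hp e h1 h2 => hF.two p hp x hx x' hx' e h1.symm h2.symm,
    fun x hx p hp p' hp' e h1 h2 => hF.one p hp p' hp' x hx e h1.symm h2.symm⟩

theorem exists_af {T V : Type} [DecidableEq T] {Gm : SimpleGraph V} {g : V → T}
    {h : T → T → T → ℤ} (hP : AngPair Gm g h) (D D' : Set V) (hd : Disjoint D D')
    (hD : Conn Gm D) (hD' : Conn Gm D') : ∃ F, AF Gm g h D D' F := by
  obtain ⟨S, h1, h2⟩ := hP D D' hd hD hD'
  refine ⟨S, ⟨fun x hx x' hx' p hp e e1 e2 => ?_, fun x hx p hp p' hp' e e1 e2 => ?_⟩⟩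
  · rcases e with e | e
    · subst e
      rw [hw_self]
      ring
    · exact h1 x hx x' hx' p hp e e1 e2
  · rcases e with e | e
    · subst e
      rw [hw_self]
      ring
    · exact h2 x hx p hp p' hp' e e1 e2

/-- The flat law along a path in a connected set of labels. -/
theorem flat_path {T : Type} [DecidableEq T] {G : SimpleGraph T} {h : T → T → T → ℤ}
    {sg : T → T → ℤ} (hA : Ang G h sg) (φ : T → T → ℤ)
    (hφ : ∀ ξ a b, G.Adj a b → a ≠ ξ → b ≠ ξ → φ ξ b - φ ξ a = h a b ξ) {B : Set T}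
    (hB : Conn G B) {ξ ξ' c d : T} (hE : Ea G ξ ξ') (h1 : ξ ∉ B) (h2 : ξ' ∉ B) (hc : c ∈ B)
    (hd : d ∈ B) :
    hw h ξ ξ' c + (φ ξ' d - φ ξ' c) - (φ ξ d - φ ξ c) = hw h ξ ξ' d := by
  rcases hE with hE | hE
  · subst hE
    rw [hw_self, hw_self]
    ring
  · have key : ∀ d, Relation.ReflTransGen (fun x y => x ∈ B ∧ y ∈ B ∧ G.Adj x y) c d →
        hw h ξ ξ' c + (φ ξ' d - φ ξ' c) - (φ ξ d - φ ξ c) = hw h ξ ξ' d := by
      intro d hcd
      induction hcd with
      | refl => ring
      | @tail u v _ huv ih =>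
        obtain ⟨hu, hv, hadj⟩ := huv
        have n1 : ξ ≠ u := fun e => h1 (e ▸ hu)
        have n2 : ξ ≠ v := fun e => h1 (e ▸ hv)
        have n3 : ξ' ≠ u := fun e => h2 (e ▸ hu)
        have n4 : ξ' ≠ v := fun e => h2 (e ▸ hv)
        have f1 := hA.flat ξ ξ' u v hE hadj n1 n2 n3 n4
        have f2 := hφ ξ u v hadj n1.symm n2.symm
        have f3 := hφ ξ' u v hadj n3.symm n4.symm
        rw [hw, if_neg hE.ne] at *
        rw [hw, if_neg hE.ne] at *
        linarith
    exact key d (hB c hc d hd)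

/-- The ladder: the weight of the own path is the change of the angle function along the crossed
path. -/
theorem ladder {T V : Type} [DecidableEq T] {G : SimpleGraph T} {Gm : SimpleGraph V} {g : V → T}
    (hg : ∀ a b, Gm.Adj a b → Ea G (g a) (g b)) {h : T → T → T → ℤ} {sg : T → T → ℤ}
    (hA : Ang G h sg) (φ : T → T → ℤ)
    (hφ : ∀ ξ a b, G.Adj a b → a ≠ ξ → b ≠ ξ → φ ξ b - φ ξ a = h a b ξ)
    {B : ℕ → Set T} (hB : ∀ s, Conn G (B s)) {D D' : Set V} {F : V → V → ℤ}
    (hF : AF Gm g h D D' F) {n n' : ℕ} {x p x' p' : ℕ → V} {s s' : ℕ → ℕ}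
    (hW : WPath Gm g B D n x p s) (hW' : WPath Gm g B D' n' x' p' s') (hs : Sync s n s' n')
    (h0 : g (p 0) = g (p' 0)) (h1 : g (p n) = g (p' n')) :
    F (x n) (p' n') - F (x 0) (p' 0) = om h g x p n := by
  obtain ⟨K, a, b, ha0, hb0, haK, hbK, hst, hab⟩ := hs
  have hφ' : ∀ ξ a b, Ea G a b → a ≠ ξ → b ≠ ξ → φ ξ b - φ ξ a = hw h a b ξ := by
    intro ξ a b hE h1 h2
    rcases hE with hE | hE
    · subst hE
      rw [hw_self]
      ring
    · rw [hw, if_neg hE.ne]
      exact hφ ξ a b hE h1 h2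
  have key : ∀ k ≤ K, F (x (a k)) (p' (b k)) - F (x 0) (p' 0) = om h g x p (a k) +
      (φ (g (x (a k))) (g (p' (b k))) - φ (g (x (a k))) (g (p (a k)))) := by
    intro k
    induction k with
    | zero =>
      intro _
      rw [ha0, hb0, h0, om]
      ring
    | succ k ih =>
      intro hk
      have i0 := ih (by omega)
      obtain ⟨ha1, hb1, hs1⟩ := hab k (by omega)
      obtain ⟨ha2, hb2, hs2⟩ := hab (k + 1) hk
      obtain ⟨hn1, hn2⟩ := hst k (by omega)
      have hΩ := om_step hA hg hW ha1 ha2 hn1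
      have hx1 := (hW.mem _ ha1).1
      have hx2 := (hW.mem _ ha2).1
      have hp1 := (hW'.mem _ hb1).2
      have hp2 := (hW'.mem _ hb2).2
      -- distinct labels
      have d1 : g (x (a k)) ≠ g (p' (b k)) := by
        intro he
        apply hW.far _ ha1
        rw [he, hs1]
        exact hW'.near _ hb1
      have d2 : g (x (a (k + 1))) ≠ g (p' (b (k + 1))) := by
        intro he
        apply hW.far _ ha2
        rw [he, hs2]
        exact hW'.near _ hb2
      have c1 : g (x (a k)) ≠ g (p (a k)) := hW.ne ha1 ha1 rfl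
      have c2 : g (x (a (k + 1))) ≠ g (p (a (k + 1))) := hW.ne ha2 ha2 rfl
      -- the middle state
      have d3 : g (x (a (k + 1))) ≠ g (p' (b k)) := by
        rcases hW.near_step ha1 ha2 hn1 with hh | hh
        · intro he
          apply hW.far _ ha2
          rw [he, ← hh.2.2, hs1]
          exact hW'.near _ hb1
        · rw [← hh.1]
          exact d1
      have c3 : g (x (a (k + 1))) ≠ g (p (a k)) := by
        rcases hW.near_step ha1 ha2 hn1 with hh | hh
        · rw [hh.2.1]
          exact c2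
        · rw [← hh.1]
          exact c1
      have eX : Ea Gm (x (a k)) (x (a (k + 1))) := by
        rcases hW.near_step ha1 ha2 hn1 with hh | hh
        · exact hh.1
        · exact Or.inl hh.1
      have eP : Ea Gm (p (a k)) (p (a (k + 1))) := by
        rcases hW.near_step ha1 ha2 hn1 with hh | hh
        · exact Or.inl hh.2.1
        · exact hh.2
      have eP' : Ea Gm (p' (b k)) (p' (b (k + 1))) := by
        rcases hW'.near_step hb1 hb2 hn2 with hh | hh
        · exact Or.inl hh.2.1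
        · exact hh.2
      have f1 := hF.one _ hx1 _ hx2 _ hp1 eX d1 d3
      have f2 := hF.two _ hx2 _ hp1 _ hp2 eP' d3 d2
      have f3 := hφ' (g (x (a (k + 1)))) _ _ (ea_map hg eP') d3.symm d2.symm
      have f4 := hφ' (g (x (a (k + 1)))) _ _ (ea_map hg eP) c3.symm c2.symm
      have f5 : hw h (g (x (a k))) (g (x (a (k + 1)))) (g (p (a k))) +
          (φ (g (x (a (k + 1)))) (g (p' (b k))) - φ (g (x (a (k + 1)))) (g (p (a k)))) -
          (φ (g (x (a k))) (g (p' (b k))) - φ (g (x (a k))) (g (p (a k)))) =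
          hw h (g (x (a k))) (g (x (a (k + 1)))) (g (p' (b k))) := by
        rcases hW.near_step ha1 ha2 hn1 with hh | hh
        · refine flat_path hA φ hφ (hB (s (a k))) (ea_map hg hh.1) (hW.far _ ha1) ?_
            (hW.near _ ha1) ?_
          · rw [hh.2.2]
            exact hW.far _ ha2
          · rw [hs1]
            exact hW'.near _ hb1
        · rw [← hh.1, hw_self, hw_self]
          ring
      linarith
  have := key K le_rfl
  rw [haK, hbK, h1] at this
  linarith

theorem three_windows {T V : Type} [DecidableEq T] (G : SimpleGraph T) (hG : G.IsTree)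
    (Gm : SimpleGraph V) (g : V → T) (hg : ∀ a b, Gm.Adj a b → Ea G (g a) (g b))
    (h : T → T → T → ℤ) (sg : T → T → ℤ) (hA : Ang G h sg) (hP : AngPair Gm g h)
    (B : ℕ → Set T) (hB : ∀ s, Conn G (B s)) (D : Fin 3 → Set V)
    (hD : ∀ i j, i ≠ j → Disjoint (D i) (D j)) (hDc : ∀ i, Conn Gm (D i))
    (n : Fin 3 → ℕ) (x p : Fin 3 → ℕ → V) (s : Fin 3 → ℕ → ℕ)
    (hW : ∀ i, WPath Gm g B (D i) (n i) (x i) (p i) (s i))
    (hs : ∀ i j, i ≠ j → Sync (s i) (n i) (s j) (n j)) (X1 P1 P2 X2 : T)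
    (h1 : ∀ i, g (x i 0) = X1) (h2 : ∀ i, g (p i 0) = P1) (h3 : ∀ i, g (x i (n i)) = P2)
    (h4 : ∀ i, g (p i (n i)) = X2) (e1 : ∀ i, Ea Gm (x i 0) (p i (n i)))
    (e2 : ∀ i, Ea Gm (p i 0) (x i (n i))) (hb : ¬ (X1 = P2 ∧ X2 = P1)) : False := by
  -- potentials
  have hpot : ∀ ξ : T, ∃ φ : T → ℤ, ∀ a b, G.Adj a b → a ≠ ξ → b ≠ ξ → φ b - φ a = h a b ξ := by
    intro ξ
    obtain ⟨φ, hφ⟩ := tree_pot G hG (fun a b => if a = ξ ∨ b = ξ then 0 else h a b ξ) (by
      intro a b hab
      by_cases ha : a = ξ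
      · simp [ha]
      · by_cases hb : b = ξ
        · simp [hb]
        · simp only [ha, hb, or_self, if_false]
          exact hA.anti a b ξ hab ha hb)
    refine ⟨φ, fun a b hab ha hb => ?_⟩
    rw [hφ a b hab]
    simp [ha, hb]
  choose φ hφ using hpot
  have hX1P1 : X1 ≠ P1 := by
    rw [← h1 0, ← h2 0]
    exact (hW 0).ne (Nat.zero_le _) (Nat.zero_le _) rfl
  have hX2P2 : P2 ≠ X2 := by
    rw [← h3 0, ← h4 0]
    exact (hW 0).ne le_rfl le_rfl rfl
  have hE1 : Ea G X2 X1 := by
    rw [← h1 0, ← h4 0]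
    exact ea_map hg (ea_symm (e1 0))
  have hE2 : Ea G P2 P1 := by
    rw [← h2 0, ← h3 0]
    exact ea_map hg (ea_symm (e2 0))
  -- the weight of the closing moves
  obtain ⟨c, hcpar, hc⟩ : ∃ c : ℤ, (2 : ℤ) ∣ c - (sg P1 X1 - sg P2 X2) ∧
      ∀ i j, i ≠ j → ∀ F, AF Gm g h (D i) (D j) F →
        F (p i 0) (x j 0) - F (x i (n i)) (p j (n j)) = c ∧
        F (x i 0) (p j 0) - F (p i (n i)) (x j (n j)) = c := by
    have mx0 : ∀ i, x i 0 ∈ D i := fun i => ((hW i).mem 0 (Nat.zero_le _)).1
    have mp0 : ∀ i, p i 0 ∈ D i := fun i => ((hW i).mem 0 (Nat.zero_le _)).2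
    have mxn : ∀ i, x i (n i) ∈ D i := fun i => ((hW i).mem (n i) le_rfl).1
    have mpn : ∀ i, p i (n i) ∈ D i := fun i => ((hW i).mem (n i) le_rfl).2
    by_cases hne : P2 ≠ X1
    · refine ⟨hw h X2 X1 P2 + hw h P2 P1 X1, ?_, fun i j hij F hF => ⟨?_, ?_⟩⟩
      · have q1 := hw_par2 hA hE1 hX2P2 hne
        have q2 := hw_par1 hA hE2 hne hX1P1.symm
        omega
      · have q1 := hF.two _ (mxn i) _ (mpn j) _ (mx0 j) (ea_symm (e1 j))
          (by rw [h3, h4]; exact hX2P2) (by rw [h3, h1]; exact hne)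
        have q2 := hF.one _ (mxn i) _ (mp0 i) _ (mx0 j) (ea_symm (e2 i))
          (by rw [h3, h1]; exact hne) (by rw [h2, h1]; exact hX1P1.symm)
        rw [h4, h1, h3] at q1
        rw [h3, h2, h1] at q2
        linarith
      · have q1 := hF.one _ (mpn i) _ (mx0 i) _ (mxn j) (ea_symm (e1 i))
          (by rw [h4, h3]; exact hX2P2.symm) (by rw [h1, h3]; exact hne.symm)
        have q2 := hF.two _ (mx0 i) _ (mxn j) _ (mp0 j) (ea_symm (e2 j))
          (by rw [h1, h3]; exact hne.symm) (by rw [h1, h2]; exact hX1P1)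
        rw [h4, h1, h3] at q1
        rw [h3, h2, h1] at q2
        linarith
    · have hne' : X2 ≠ P1 := by
        intro he
        exact hb ⟨(not_not.1 hne).symm, he⟩
      refine ⟨hw h P2 P1 X2 + hw h X2 X1 P1, ?_, fun i j hij F hF => ⟨?_, ?_⟩⟩
      · have q1 := hw_par1 hA hE2 hX2P2 hne'.symm
        have q2 := hw_par2 hA hE1 hne'.symm hX1P1.symm
        omega
      · have q1 := hF.one _ (mxn i) _ (mp0 i) _ (mpn j) (ea_symm (e2 i))
          (by rw [h3, h4]; exact hX2P2) (by rw [h2, h4]; exact hne'.symm)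
        have q2 := hF.two _ (mp0 i) _ (mpn j) _ (mx0 j) (ea_symm (e1 j))
          (by rw [h2, h4]; exact hne'.symm) (by rw [h2, h1]; exact hX1P1.symm)
        rw [h3, h2, h4] at q1
        rw [h4, h1, h2] at q2
        linarith
      · have q1 := hF.two _ (mpn i) _ (mxn j) _ (mp0 j) (ea_symm (e2 j))
          (by rw [h4, h3]; exact hX2P2.symm) (by rw [h4, h2]; exact hne')
        have q2 := hF.one _ (mpn i) _ (mx0 i) _ (mp0 j) (ea_symm (e1 i))
          (by rw [h4, h2]; exact hne') (by rw [h1, h2]; exact hX1P1)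
        rw [h3, h2, h4] at q1
        rw [h4, h1, h2] at q2
        linarith
  -- two windows
  have two : ∀ i j, i ≠ j → om h g (x i) (p i) (n i) + om h g (x j) (p j) (n j) + 2 * c = 0 := by
    intro i j hij
    obtain ⟨F, hF⟩ := exists_af hP (D i) (D j) (hD i j hij) (hDc i) (hDc j)
    have l1 := ladder hg hA φ hφ hB hF (hW i) (hW j) (hs i j hij)
      (by rw [h2, h2]) (by rw [h4, h4])
    have l2 := ladder hg hA φ hφ hB hF.swap (hW j) (hW i) (hs j i hij.symm)
      (by rw [h2, h2]) (by rw [h4, h4])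
    have l3 := hc i j hij F hF
    linarith [l3.1, l3.2]
  have w0 : om h g (x 0) (p 0) (n 0) + c = 0 := by
    have a1 := two 0 1 (by decide)
    have a2 := two 0 2 (by decide)
    have a3 := two 1 2 (by decide)
    linarith
  have par := om_par hA hg (hW 0) (n 0) le_rfl
  rw [h1, h2, h3, h4] at par
  have hodd := hA.odd P1 X1 hX1P1.symm
  omega

end Pool.Agent.Lib.MP_40f35d_gt.Sw
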