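import Pool.Agent.Lib.MP_40f35d_gt.Sw.Rb1
import Pool.Agent.Lib.MP_40f35d_gt.Sw.Three
import Pool.Agent.Lib.MP_40f35d_gt.Sw.Greedy
import Pool.Agent.Lib.MP_40f35d_gt.Sw.App
import Pool.Agent.Lib.MP_40f35d_gt.Sw.Piece
import Pool.Agent.Lib.MP_40f35d_gt.Sw.SyncFin
import Pool.Agent.Lib.MP_40f35d_gt.Sw.Ex

/-!
# MP_40f35d_gt, project Sw: bounded reading words (row C8)
-/

set_option autoImplicit false

open Set Topology

namespace Pool.Agent.Lib.MP_40f35d_gt.Sw

open Pool.Agent.Lib.MP_40f35d_gt.H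

/-- An arc cut into `k` pieces, each read by a bounded word, is read by a bounded word. -/
theorem pieces_read {T V : Type} (Gm : SimpleGraph V) (hGm : Gm.IsTree) (g : V → T)
    (G : SimpleGraph T) (near : V → ℕ → Prop) (W : ℕ → V) (L : ℕ) (B : ℕ)
    (hB : ∀ a b, Unc Gm near W L a b → ∃ ω : List T, ω.length ≤ B ∧ ω ≠ [] ∧ Reads Gm g G ω a b) :
    ∀ (k : ℕ) (a b : V), Pieces Gm near W L k a b →
      ∃ ω : List T, ω.length ≤ k * B + 1 ∧ ω ≠ [] ∧ Reads Gm g G ω a b := by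
  intro k
  induction k with
  | zero =>
    intro a b h
    have hab : a = b := h
    subst hab
    exact ⟨[g a], by simp, by simp, reads_self Gm g G a⟩
  | succ k ih =>
    intro a b h
    obtain ⟨c, hc, hu, hp⟩ := h
    obtain ⟨ω, h1, h2, h3⟩ := hB a c hu
    obtain ⟨ω', h1', h2', h3'⟩ := ih c b hp
    refine ⟨ω ++ ω', ?_, ?_, read_append Gm hGm g G ω ω' h2 h2' a c b hc h3 h3'⟩
    · rw [List.length_append]
      have : (k + 1) * B + 1 = B + (k * B + 1) := by ring
      omega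
    · simp [h2]

/-- Row C8: bounded reading words for the arcs between visited tiles. -/
theorem readable {T : Type} [Fintype T] [DecidableEq T] (G : SimpleGraph T) (hG : G.IsTree)
    (l : ℕ) (w : ℕ → T) :
    ∃ B : ℕ, ∀ {V : Type} (Gm : SimpleGraph V) (_ : Gm.IsTree) (g : V → T)
      (_ : ∀ a b, Gm.Adj a b → Ea G (g a) (g b)) (h : T → T → T → ℤ) (sg : T → T → ℤ)
      (_ : Ang G h sg) (_ : AngPair Gm g h) (L : ℕ) (W : ℕ → V) (P : ℕ → ℕ)
      (_ : ∀ u < L, Ea Gm (W u) (W (u + 1))) (_ : ∀ u < L, Nr (P u) (P (u + 1)))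
      (_ : ∀ u ≤ L, P u ≤ l ∧ G.dist (g (W u)) (w (P u)) ≤ 1),
      ∀ i ≤ L, ∀ j ≤ L, ∃ ω : List T, ω.length ≤ B ∧ ω ≠ [] ∧ Reads Gm g G ω (W i) (W j) := by
  classical
  obtain ⟨k, c, hc⟩ := sync_fin l
  obtain ⟨B1, hB1⟩ := read_piece G hG l w
  set N : ℕ := 2 * Fintype.card (T × T × T × T × Fin k) + 1 with hN
  refine ⟨(4 * N + 1) * B1 + 1, ?_⟩
  intro V Gm hGm g hg h sg hA hP L W P hW hPn hPl i hi j hj
  have hnear : ∀ u ≤ L, ∀ p, Ea Gm p (W u) → G.dist (g p) (w (P u)) ≤ 2 := by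
    intro u hu p hp
    have h1 : G.dist (g p) (g (W u)) ≤ 1 := by
      rcases hp with hp | hp
      · rw [hp, SimpleGraph.dist_self]
        omega
      · rcases hg _ _ hp with h2 | h2
        · rw [h2, SimpleGraph.dist_self]
          omega
        · rw [SimpleGraph.dist_eq_one_iff_adj.2 h2]
    have h3 := (hPl u hu).2
    have h4 : G.dist (g p) (w (P u)) ≤ G.dist (g p) (g (W u)) + G.dist (g (W u)) (w (P u)) :=
      hG.1.dist_triangle
    omega
  rcases greedy Gm hGm (fun p u => G.dist (g p) (w (P u)) ≤ 2) W L hW hnear N i j hi hj with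
    hpc | ⟨u0, u1, hcr, hdj⟩
  · exact pieces_read Gm hGm g G _ W L B1
      (fun a b hab => hB1 Gm hGm g L W P hW hPn (fun u hu => (hPl u hu).1) a b hab) _ _ _ hpc
  · exfalso
    -- every window gives a path of the game
    have hwin : ∀ r : Fin N, ∃ (n : ℕ) (x p : ℕ → V) (s : ℕ → ℕ),
        WPath Gm g (fun s => {z | G.dist z (w s) ≤ 2}) (W '' Icc (u0 r) (u1 r)) n x p s ∧
        Ea Gm (x 0) (p n) ∧ Ea Gm (p 0) (x n) ∧
        ¬ (g (x 0) = g (x n) ∧ g (p n) = g (p 0)) ∧ ∀ t ≤ n, s t ≤ l := by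
      intro r
      obtain ⟨h01, h1L, hC⟩ := hcr r
      obtain ⟨x1, p1, p2, x2, s1, s2, hS, hT, hE1, hE2, hb⟩ := exists_gs Gm hGm
        (fun p u => G.dist (g p) (w (P u)) ≤ 2) W (u0 r) (u1 r) h01
        (fun u _ hu => hW u (by omega)) (fun u _ hu p hp => hnear u (by omega) p hp) hC
      obtain ⟨n, x, p, s, hWP, hx0, hp0, hxn, hpn, hs⟩ := wpath_of_gstep Gm g
        (fun s => {z | G.dist z (w s) ≤ 2}) P (W '' Icc (u0 r) (u1 r)) (u0 r) (u1 r)
        (fun u _ hu => hPn u (by omega)) x1 p1 p2 x2 s1 s2 hS hT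
      refine ⟨n, x, p, s, hWP, ?_, ?_, ?_, ?_⟩
      · rw [hx0, hpn]
        exact hE1
      · rw [hp0, hxn]
        exact hE2
      · rw [hx0, hpn, hxn, hp0]
        rintro ⟨e1, e2⟩
        have hfar : ¬ G.dist (g x1) (w (P s1)) ≤ 2 := hS.2.2.2.2.1
        have hnr : G.dist (g p1) (w (P s1)) ≤ 2 := hS.2.2.2.2.2
        rcases hb with hb | hb | hb
        · -- x1 = x2
          apply hfar
          rw [hb, e2]
          exact hnr
        · apply hfar
          rw [e1, ← hb]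
          exact hnr
        · apply hb
          refine ⟨fun u _ => ?_, fun u _ => ?_⟩
          · show G.dist (g x1) (w (P u)) ≤ 2 ↔ G.dist (g p2) (w (P u)) ≤ 2
            rw [e1]
          · show G.dist (g x2) (w (P u)) ≤ 2 ↔ G.dist (g p1) (w (P u)) ≤ 2
            rw [e2]
      · intro t ht
        obtain ⟨u, hu0, hu1, hsu⟩ := hs t ht
        rw [hsu]
        exact (hPl u (by omega)).1
    choose n x p s hWP hE1 hE2 hb hsl using hwin
    -- pigeonhole
    let f : Fin N → T × T × T × T × Fin k := fun r =>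
      (g (x r 0), g (p r 0), g (x r (n r)), g (p r (n r)), c (s r) (n r))
    obtain ⟨y, hy⟩ := Fintype.exists_lt_card_fiber_of_mul_lt_card f
      (n := 2) (by rw [Fintype.card_fin, hN]; omega)
    obtain ⟨r1, hr1, r2, hr2, r3, hr3, h12, h13, h23⟩ := Finset.two_lt_card.1 hy
    simp only [Finset.mem_filter, Finset.mem_univ, true_and] at hr1 hr2 hr3
    obtain ⟨Y1, Y2, Y3, Y4, Y5⟩ := y
    let q : Fin 3 → Fin N := ![r1, r2, r3]
    have hq : ∀ i, f (q i) = (Y1, Y2, Y3, Y4, Y5) := by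
      intro i
      fin_cases i
      · exact hr1
      · exact hr2
      · exact hr3
    have hqi : ∀ i j, i ≠ j → q i ≠ q j := by
      intro i j hij
      fin_cases i <;> fin_cases j
      · exact absurd rfl hij
      · exact h12
      · exact h13
      · exact h12.symm
      · exact absurd rfl hij
      · exact h23
      · exact h13.symm
      · exact h23.symm
      · exact absurd rfl hij
    have hq' : ∀ i, g (x (q i) 0) = Y1 ∧ g (p (q i) 0) = Y2 ∧ g (x (q i) (n (q i))) = Y3 ∧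
        g (p (q i) (n (q i))) = Y4 ∧ c (s (q i)) (n (q i)) = Y5 := by
      intro i
      have := hq i
      simp only [f, Prod.mk.injEq] at this
      exact this
    have hstep : ∀ r, ∀ t < n r, Nr (s r t) (s r (t + 1)) := by
      intro r t ht
      rcases (hWP r).step t ht with h1 | h1
      · rw [← h1.2.2]
        exact nr_refl _
      · exact h1.2.2
    refine three_windows G hG Gm g hg h sg hA hP (fun s => {z | G.dist z (w s) ≤ 2})
      (fun s => conn_ball G hG.1 (w s) 2) (fun i => W '' Icc (u0 (q i)) (u1 (q i)))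
      (fun i j hij => hdj _ _ (hqi i j hij))
      (fun i => conn_walk Gm W _ _ fun u _ hu => hW u (by have := (hcr (q i)).2.1; omega))
      (fun i => n (q i)) (fun i => x (q i)) (fun i => p (q i)) (fun i => s (q i))
      (fun i => hWP (q i))
      (fun i j _ => hc _ _ _ _ (hsl (q i)) (hstep (q i)) (hsl (q j)) (hstep (q j))
        (by rw [(hq' i).2.2.2.2, (hq' j).2.2.2.2]))
      Y1 Y2 Y3 Y4 (fun i => (hq' i).1) (fun i => (hq' i).2.1) (fun i => (hq' i).2.2.1)
      (fun i => (hq' i).2.2.2.1) (fun i => hE1 (q i)) (fun i => hE2 (q i)) ?_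
    rintro ⟨e1, e2⟩
    apply hb (q 0)
    refine ⟨?_, ?_⟩
    · rw [(hq' 0).1, (hq' 0).2.2.1]
      exact e1
    · rw [(hq' 0).2.2.2.1, (hq' 0).2.1]
      exact e2

end Pool.Agent.Lib.MP_40f35d_gt.Sw
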