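import Pool.Agent.Lib.MP_40f35d_gt.Sw.Defs

/-!
# MP_40f35d_gt, project Sw: translation to the frozen statement
-/

set_option autoImplicit false

namespace Pool.Agent.Lib.MP_40f35d_gt.Sw

open Pool.Agent.Lib.MP_40f35d_gt.H

/-- The frozen statement `S13072` from hereditary weak chainability in the definitions of `Sw`. -/
theorem top_of (hH : ∀ X : Set (EuclideanSpace ℝ (Fin 2)), IsCompact X → IsConnected X →
    TreeLike X → WC X → ∀ K ⊆ X, IsCompact K → IsConnected K → WC K) :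
    ¬ (∃ X : Set (EuclideanSpace ℝ (Fin 2)), IsCompact X ∧ IsConnected X ∧
      (∀ ε : ℝ, 0 < ε → ∃ (n : ℕ) (U : Fin n → Set (EuclideanSpace ℝ (Fin 2))),
        (∀ i, IsOpen (U i)) ∧ X ⊆ (⋃ i, U i) ∧ (∀ i, Metric.diam (U i ∩ X) < ε) ∧
        (SimpleGraph.fromRel (fun i j => (U i ∩ U j ∩ X).Nonempty)).IsTree ∧
        (∀ i j k, i ≠ j → j ≠ k → i ≠ k → U i ∩ U j ∩ U k ∩ X = ∅)) ∧
      (∃ (Y : Type) (_ : MetricSpace Y), CompactSpace Y ∧ ConnectedSpace Y ∧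
        (∀ ε : ℝ, 0 < ε → ∃ (n : ℕ) (U : Fin n → Set Y),
          (∀ i, IsOpen (U i)) ∧ (⋃ i, U i) = Set.univ ∧ (∀ i, Metric.diam (U i) < ε) ∧
          ∀ i j : Fin n, ((U i ∩ U j).Nonempty ↔ ((i : ℕ) ≤ (j : ℕ) + 1 ∧ (j : ℕ) ≤ (i : ℕ) + 1))) ∧
        ∃ f : Y → EuclideanSpace ℝ (Fin 2), Continuous f ∧ Set.range f = X) ∧
      ∃ K ⊆ X, IsCompact K ∧ IsConnected K ∧
        ¬ (∃ (Y : Type) (_ : MetricSpace Y), CompactSpace Y ∧ ConnectedSpace Y ∧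
          (∀ ε : ℝ, 0 < ε → ∃ (n : ℕ) (U : Fin n → Set Y),
            (∀ i, IsOpen (U i)) ∧ (⋃ i, U i) = Set.univ ∧ (∀ i, Metric.diam (U i) < ε) ∧
            ∀ i j : Fin n, ((U i ∩ U j).Nonempty ↔ ((i : ℕ) ≤ (j : ℕ) + 1 ∧ (j : ℕ) ≤ (i : ℕ) + 1))) ∧
          ∃ f : Y → EuclideanSpace ℝ (Fin 2), Continuous f ∧ Set.range f = K)) := by
  rintro ⟨X, hX, hXc, hT, hW, K, hKX, hK, hKc, hK'⟩
  exact hK' (hH X hX hXc hT hW K hKX hK hKc)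

end Pool.Agent.Lib.MP_40f35d_gt.Sw
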